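import Pool.Agent.MP_c853c5_nt.D.Defs
import Pool.Agent.MP_c853c5_nt.S.Basic

/-!
Numbers with a large square factor, and dyadic pieces of prime blocks.
-/

set_option autoImplicit false

open Finset Filter

namespace Pool.Agent.MP_c853c5_nt.D

open Pool.Agent.MP_c853c5_nt.S

lemma sgl_nn_Bad (d n : ℕ) : 0 ≤ sgl d n := by
  change 0 ≤ (if n = d ∧ n ≠ 0 then (1 : ℝ) else 0)
  split_ifs <;> norm_num

lemma sum_sgl_Bad (s : Finset ℕ) (d : ℕ) (f : ℕ → ℝ) (hf : 0 ≤ f d) :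
    ∑ m ∈ s, sgl d m * f m ≤ f d := by
  refine (sum_le_sum (g := fun m => if m = d then f d else 0) fun m _ => ?_).trans ?_
  · change (if m = d ∧ m ≠ 0 then (1 : ℝ) else 0) * f m ≤ _
    by_cases h : m = d
    · rw [if_pos h, h]
      split_ifs
      · rw [one_mul]
      · rwa [zero_mul]
    · rw [if_neg h, if_neg fun h1 => h h1.1, zero_mul]
  · rw [sum_ite_eq']
    split_ifs
    · exact le_rfl
    · exact hf

/-- the squares of the numbers in `(Y, R]` -/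
noncomputable def sqs_Bad (Y R : ℕ) : AF := ∑ k ∈ Ioo Y (R + 1), sgl (k ^ 2)

lemma nn_Bad (Y R : ℕ) : Nn (sqs_Bad Y R) := Nn.sum fun _ _ => sgl_nn_Bad _

lemma sum_sqs_Bad (Y R : ℕ) (s : Finset ℕ) (f : ℕ → ℝ) (hf : ∀ n, 0 ≤ f n) :
    ∑ m ∈ s, sqs_Bad Y R m * f m ≤ ∑ k ∈ Ioo Y (R + 1), f (k ^ 2) := by
  simp only [sqs_Bad, AF_sum, sum_mul]
  rw [sum_comm]
  exact sum_le_sum fun k _ => sum_sgl_Bad s _ f (hf _)

lemma ms_Bad (X Y R : ℕ) : ms X (sqs_Bad Y R) ≤ 2 / ((Y : ℝ) + 1) := by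
  have h1 := sum_sqs_Bad Y R (Icc 1 X) (fun n => (n : ℝ)⁻¹) fun n => by positivity
  have h2 := sum_Ioo_inv_sq_le (α := ℝ) Y (R + 1)
  simp only [Nat.cast_pow] at h1
  simp only [ms, div_eq_mul_inv (sqs_Bad Y R _)]
  exact h1.trans h2

lemma card_Bad (X Y R : ℕ) : ∑ m ∈ Icc 1 X, |sqs_Bad Y R m| ≤ R := by
  have h1 := sum_sqs_Bad Y R (Icc 1 X) (fun _ => 1) fun _ => zero_le_one
  simp only [mul_one, sum_const, Nat.card_Ioo, nsmul_eq_mul] at h1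
  rw [sum_congr rfl fun m _ => abs_of_nonneg (nn_Bad Y R m)]
  exact h1.trans (by exact_mod_cast (by omega))

lemma le_Bad {x κ : ℝ} (hx : 0 ≤ x) {n : ℕ} (hn : Win x n) :
    bad x κ n ≤ (sqs_Bad ⌊x ^ κ⌋₊ (Nat.sqrt ⌊2 * x⌋₊) * zt) n := by
  classical
  rw [zt, ArithmeticFunction.coe_mul_zeta_apply]
  change (if n ≠ 0 ∧ ∃ p : ℕ, p.Prime ∧ x ^ κ < p ∧ p ^ 2 ∣ n then (1 : ℝ) else 0) ≤ _
  split_ifs with h
  · obtain ⟨h0, p, hp, h1, h2⟩ := h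
    refine le_trans ?_ (single_le_sum (fun d _ => nn_Bad _ _ d) (Nat.mem_divisors.2 ⟨h2, h0⟩))
    have h3 : p ∈ Ioo ⌊x ^ κ⌋₊ (Nat.sqrt ⌊2 * x⌋₊ + 1) :=
      mem_Ioo.2 ⟨(Nat.floor_lt (Real.rpow_nonneg hx _)).2 h1, Nat.lt_succ_of_le (Nat.le_sqrt'.2
        ((Nat.le_of_dvd (Nat.pos_of_ne_zero h0) h2).trans (Nat.le_floor hn.2)))⟩
    rw [sqs_Bad, AF_sum]
    refine le_trans (le_of_eq ?_) (single_le_sum (fun k _ => sgl_nn_Bad (k ^ 2) (p ^ 2)) h3)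
    exact (if_pos ⟨rfl, pow_ne_zero _ hp.ne_zero⟩).symm
  · exact sum_nonneg fun d _ => nn_Bad _ _ d

theorem dBad : BadStmt := by
  rintro ⟨C, hC, h⟩ κ s hκ hs hs'
  have hδ : 0 < min κ (1 / 2 - s) / 2 := half_pos (lt_min hκ (by linarith))
  refine ⟨_, hδ, ?_⟩
  filter_upwards [eventually_ge_atTop 1,
    (tendsto_rpow_atTop hδ).eventually_ge_atTop (4 + 2 * C)] with x hx hb
  have hx0 : 0 < x := by linarith
  have hΔ : 0 < x ^ (-s) := Real.rpow_pos_of_pos hx0 _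
  obtain ⟨c, hc0, hc2, h1⟩ := h x _ hx hΔ (Real.rpow_le_one_of_one_le_of_nonpos hx (by linarith))
  refine (SS_mono hΔ.le fun n hn => le_Bad hx0.le hn).trans ?_
  have h2 := (abs_le.1 (h1 (sqs_Bad ⌊x ^ κ⌋₊ (Nat.sqrt ⌊2 * x⌋₊)))).2
  have h3 := ms_Bad ⌊2 * x⌋₊ ⌊x ^ κ⌋₊ (Nat.sqrt ⌊2 * x⌋₊)
  have h4 := card_Bad ⌊2 * x⌋₊ ⌊x ^ κ⌋₊ (Nat.sqrt ⌊2 * x⌋₊)
  have h5 : 2 / ((⌊x ^ κ⌋₊ : ℝ) + 1) ≤ 2 * x ^ (-κ) := by
    rw [Real.rpow_neg hx0.le, ← div_eq_mul_inv]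
    exact div_le_div_of_nonneg_left (by norm_num) (Real.rpow_pos_of_pos hx0 _)
      (Nat.lt_floor_add_one _).le
  have h6 : ((Nat.sqrt ⌊2 * x⌋₊ : ℕ) : ℝ) ≤ 2 * x ^ (1 / 2 : ℝ) := by
    have h7 : ((Nat.sqrt ⌊2 * x⌋₊ : ℕ) : ℝ) ^ 2 ≤ 2 * x :=
      le_trans (by exact_mod_cast Nat.sqrt_le' _) (Nat.floor_le (by linarith))
    have h8 : (x ^ (1 / 2 : ℝ)) ^ 2 = x := by
      rw [← Real.rpow_natCast, ← Real.rpow_mul hx0.le]
      norm_num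
    exact abs_le_of_sq_le_sq' (by rw [mul_pow, h8]; linarith) (by positivity) |>.2
  obtain ⟨δ, hd⟩ : ∃ δ, δ = min κ (1 / 2 - s) / 2 := ⟨_, rfl⟩
  rw [← hd] at hb hδ ⊢
  have d1 : 2 * δ ≤ κ := by linarith [min_le_left κ (1 / 2 - s)]
  have d2 : 2 * δ ≤ 1 / 2 - s := by linarith [min_le_right κ (1 / 2 - s)]
  have e1 : x * x ^ (-κ) ≤ x ^ (1 - 2 * δ) := by
    nth_rewrite 1 [← Real.rpow_one x]
    rw [← Real.rpow_add hx0]
    exact Real.rpow_le_rpow_of_exponent_le hx (by linarith)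
  have e2 : (x ^ (-s))⁻¹ * x ^ (1 / 2 : ℝ) ≤ x ^ (1 - 2 * δ) := by
    rw [← Real.rpow_neg hx0.le, ← Real.rpow_add hx0]
    exact Real.rpow_le_rpow_of_exponent_le hx (by linarith)
  have e3 : x ^ (1 - δ) = x ^ δ * x ^ (1 - 2 * δ) := by
    rw [← Real.rpow_add hx0]
    ring_nf
  have e4 : c * x * ms ⌊2 * x⌋₊ (sqs_Bad ⌊x ^ κ⌋₊ (Nat.sqrt ⌊2 * x⌋₊)) ≤
      2 * x * (2 * x ^ (-κ)) :=
    (mul_le_mul_of_nonneg_left (h3.trans h5) (by positivity)).trans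
      (mul_le_mul_of_nonneg_right (mul_le_mul_of_nonneg_right hc2 hx0.le) (by positivity))
  have e5 := mul_le_mul_of_nonneg_left (h4.trans h6) (div_pos hC hΔ).le
  have e6 := mul_le_mul_of_nonneg_left e2 hC.le
  have e7 := mul_le_mul_of_nonneg_right hb (Real.rpow_nonneg hx0.le (1 - 2 * δ))
  rw [div_eq_mul_inv] at e5 h2
  rw [e3]
  linarith

theorem dPr : PrStmt := by
  refine ⟨fun x B N hx hB => ⟨max (max ⌊x ^ B.lo⌋₊ ⌊x ^ B.a⌋₊) (N - 1), min ⌊x ^ B.hi⌋₊ (2 * N - 1),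
    ?_⟩, fun P Q N => ⟨max P (N - 1), min Q (2 * N - 1), ?_⟩⟩
  · ext n
    have h0 : ∀ c : ℝ, 0 ≤ x ^ c := fun c => Real.rpow_nonneg (by linarith) c
    change (if N ≤ n ∧ n < 2 * N then bf x B n else 0) = if _ ∧ _ ∧ n.Prime then 1 else 0
    by_cases h : B.Mem x n
    · rw [bf_of_mem h]
      obtain ⟨h1, h2, h3, h4⟩ := (hB.mem_iff hx.le).1 h
      have h5 := (Nat.floor_lt (h0 _)).2 h2
      have h6 := (Nat.floor_lt (h0 _)).2 h3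
      have h7 := Nat.le_floor h4
      have h8 := h1.pos
      exact if_congr ⟨fun h9 => ⟨by omega, by omega, h1⟩, fun h9 => by omega⟩ rfl rfl
    · rw [bf_of_not h, ite_self, if_neg]
      rintro ⟨h1, h2, h3⟩
      exact h ((hB.mem_iff hx.le).2 ⟨h3, (Nat.floor_lt (h0 _)).1 (by omega),
        (Nat.floor_lt (h0 _)).1 (by omega), (Nat.le_floor_iff (h0 _)).1 (by omega)⟩)
  · ext n
    change (if N ≤ n ∧ n < 2 * N then (if P < n ∧ n ≤ Q ∧ n.Prime then (1 : ℝ) else 0) else 0) =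
      if _ ∧ _ ∧ n.Prime then 1 else 0
    rw [← ite_and]
    exact if_congr ⟨fun h => ⟨by omega, by omega, h.2.2.2⟩,
      fun h => ⟨by omega, by omega, by omega, h.2.2⟩⟩ rfl rfl

end Pool.Agent.MP_c853c5_nt.D
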