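import Pool.Agent.MP_c853c5_nt.S.Defs
import Pool.Agent.MP_c853c5_nt.Z.PFl
import Pool.Agent.MP_c853c5_nt.B.Ident

/-!
Removing the small primes from the free factor.
-/

set_option autoImplicit false

open Finset Filter

namespace Pool.Agent.MP_c853c5_nt.D

open Pool.Agent.MP_c853c5_nt.S

/-- the restriction of `c` to `[N, 2 N)` -/
noncomputable def dy (N : ℕ) (c : AF) : AF :=
  ⟨fun n => if N ≤ n ∧ n < 2 * N then c n else 0, by simp⟩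

/-- the logarithmic mass up to `X` -/
noncomputable def ms (X : ℕ) (f : AF) : ℝ := ∑ m ∈ Icc 1 X, f m / m

/-- the constant function -/
noncomputable def zt : AF := (ArithmeticFunction.zeta : ArithmeticFunction ℝ)

/-- the primes in `(x ^ κ, x ^ z]` -/
noncomputable def PP (x κ z : ℝ) : AF := prI ⌊x ^ κ⌋₊ ⌊x ^ z⌋₊

open Classical in
/-- the numbers divisible by the square of a prime above `x ^ κ` -/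
noncomputable def bad (x κ : ℝ) : AF :=
  ⟨fun n => if n ≠ 0 ∧ ∃ p : ℕ, p.Prime ∧ x ^ κ < p ∧ p ^ 2 ∣ n then 1 else 0, by simp⟩

/-- nominal sizes -/
def Near {ι : Type} (x γ : ℝ) (a : ι → ℝ) (N : ι → ℕ) : Prop :=
  ∀ i, x ^ (a i - γ) ≤ N i ∧ (N i : ℝ) ≤ x ^ (a i + γ)

/-- the level of the sieve weights -/
noncomputable def lev (τ t η : ℝ) : ℝ := min (η / 20) ((τ - t) / 4)

/-- dyadic expansion -/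
def DyStmt : Prop :=
  (∀ (ι : Type) [Fintype ι] [DecidableEq ι] (x Δ : ℝ) (L : ℕ) (c : ι → AF) (h : AF), 0 < x →
    2 * x < 2 ^ L →
    SS x Δ ((∏ i, c i) * h) = ∑ e : ι → Fin L, SS x Δ ((∏ i, dy (2 ^ (e i : ℕ)) (c i)) * h)) ∧
  ∀ (X L : ℕ) (c : AF), X < 2 ^ L → ∑ e : Fin L, ms X (dy (2 ^ (e : ℕ)) c) = ms X c

/-- a product that meets the window -/
def VanStmt : Prop := ∀ (ι : Type) [Fintype ι] (x Δ : ℝ) (g : ι → AF) (h : AF), 0 < x →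
  SS x Δ ((∏ i, g i) * h) ≠ 0 → ∃ (m : ι → ℕ) (l : ℕ), (∀ i, g i (m i) ≠ 0) ∧ h l ≠ 0 ∧
    x / 2 < (∏ i, (m i : ℝ)) * l ∧ (∏ i, (m i : ℝ)) * l ≤ 2 * x

/-- the nominal point, with a free last coordinate -/
def NomStmt : Prop := ∀ (ι : Type) [Fintype ι] (lo hi : ι → ℝ) (γ : ℝ), 0 < γ →
  ∀ᶠ x : ℝ in atTop, ∀ N m : ι → ℕ,
    (∀ i, 1 ≤ N i ∧ N i ≤ m i ∧ m i < 2 * N i ∧ x ^ lo i ≤ m i ∧ (m i : ℝ) ≤ x ^ hi i) →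
    (∏ i, (m i : ℝ)) ≤ 2 * x →
    ∃ (a : ι → ℝ) (b : ℝ), (∀ i, 0 ≤ a i ∧ lo i ≤ a i ∧ a i ≤ hi i) ∧ 0 ≤ b ∧
      ∑ i, a i + b = 1 ∧ Near x γ a N

/-- general factors and a general last factor -/
def T2Stmt : Prop := E2D → ∀ (ι : Type) [Fintype ι] (τ t η : ℝ) (K A : ℕ), 1 / 3 ≤ t → t < τ →
  τ ≤ 1 / 2 → 0 < η → ∃ γ : ℝ, 0 < γ ∧ ∀ᶠ x : ℝ in atTop,
    ∀ (pr : ι → Prop) (a : ι → ℝ) (b : ℝ) (N : ι → ℕ) (g : ι → AF) (h : AF), (∀ i, 0 ≤ a i) →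
      0 ≤ b → ∑ i, a i + b = 1 →
      E2pt τ η K (fun o : Option ι => o.elim False pr) (fun o => o.elim b a) →
      (∀ i, Slot (N i) (g i)) → Near x γ a N → (∀ i, pr i → ∃ P Q : ℕ, g i = prI P Q) →
      (∀ n, |h n| ≤ 1) → |Dl t x ((∏ i, g i) * h)| ≤ x / Real.log x ^ A

/-- general factors, a short factor and the constant function -/
def T1Stmt : Prop := E1D → ∀ (ι : Type) [Fintype ι] (τ t η : ℝ) (K : ℕ), 1 / 3 ≤ t → t < τ →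
  τ ≤ 1 / 2 → 0 < η → η ≤ 1 / 1000 → ∃ γ : ℝ, 0 < γ ∧ ∀ᶠ x : ℝ in atTop,
    ∀ (a : ι → ℝ) (b : ℝ) (N : ι → ℕ) (g : ι → AF) (lam : AF), (∀ i, 0 ≤ a i) →
      ∑ i, a i + b = 1 → E1pt τ η K a b → (∀ i, Slot (N i) (g i)) → Near x γ a N →
      (∀ d, |lam d| ≤ 1) → (∀ d, lam d ≠ 0 → (d : ℝ) ≤ x ^ lev τ t η) →
      |Dl t x ((∏ i, g i) * (lam * zt))| ≤ x ^ (1 - η / 10)

/-- the main term of a sum with a free variable -/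
def SZStmt : Prop := ∃ C : ℝ, 0 < C ∧ ∀ x Δ : ℝ, 1 ≤ x → 0 < Δ → Δ ≤ 1 → ∃ c : ℝ, 0 ≤ c ∧
  c ≤ 2 ∧ ∀ g : AF,
    |SS x Δ (g * zt) - c * x * ms ⌊2 * x⌋₊ g| ≤ C / Δ * ∑ m ∈ Icc 1 ⌊2 * x⌋₊, |g m|

def BadStmt : Prop := SZStmt → ∀ κ s : ℝ, 0 < κ → 0 < s → s < 1 / 2 → ∃ δ : ℝ, 0 < δ ∧
  ∀ᶠ x : ℝ in atTop, SS x (x ^ (-s)) (bad x κ) ≤ x ^ (1 - δ)

/-- the expansion of the free factor -/
def IdStmt : Prop := ∀ (r : ℕ) (B : Fin r → Blk) (κ z : ℝ), 0 < κ → κ ≤ z → ∃ J : ℕ,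
  ∀ δ : ℝ, 0 < δ → ∀ᶠ x : ℝ in atTop, ∀ n : ℕ, (n : ℝ) ≤ 2 * x →
    |((∏ i, bf x (B i)) * bf x (fr z)) n - ∑ j ∈ range J, (-1) ^ j / (j.factorial : ℝ) *
      ((∏ i, bf x (B i)) * PP x κ z ^ j * bf x (fr κ)) n| ≤ x ^ δ * bad x κ n

/-- type I with a rough last factor -/
def T1RStmt : Prop := T1Stmt → SZStmt → E1D → ∀ (ι : Type) [Fintype ι] (τ t η κ : ℝ) (K w : ℕ),
  1 / 3 ≤ t → t < τ → τ ≤ 1 / 2 → 0 < η → η ≤ 1 / 1000 → 13 ≤ w → 0 < κ →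
  κ * (4 * w + 6) ≤ lev τ t η → ∃ γ : ℝ, 0 < γ ∧ ∀ᶠ x : ℝ in atTop,
    ∀ (a : ι → ℝ) (b : ℝ) (N : ι → ℕ) (g : ι → AF), (∀ i, 0 ≤ a i) → ∑ i, a i + b = 1 →
      E1pt τ η K a b → (∀ i, Slot (N i) (g i)) → Near x γ a N → (∀ i n, 0 ≤ g i n) →
      |Dl t x ((∏ i, g i) * bf x (fr κ))| ≤ x ^ (1 - η / 20) +
        2 ^ 28 / 4 ^ w / κ * (∏ i, ms ⌊2 * x⌋₊ (g i)) * (x / Real.log x)

/-- masses -/
def MsStmt : Prop :=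
  (∃ M : ℝ, 1 ≤ M ∧ ∀ᶠ x : ℝ in atTop, ∀ B : Blk, 1 / 100 ≤ B.a → ms ⌊2 * x⌋₊ (bf x B) ≤ M) ∧
  ∀ κ z : ℝ, 0 < κ → κ ≤ 1 → ∀ᶠ x : ℝ in atTop, ms ⌊2 * x⌋₊ (PP x κ z) ≤ Real.log (6 / κ)

/-- the pieces of prime blocks are sums over primes -/
def PrStmt : Prop :=
  (∀ (x : ℝ) (B : Blk) (N : ℕ), 1 < x → B.IsP → ∃ P Q : ℕ, dy N (bf x B) = prI P Q) ∧
  ∀ (P Q N : ℕ), ∃ P' Q' : ℕ, dy N (prI P Q) = prI P' Q'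

/-- the bound for one dyadic box -/
def OneOK {r : ℕ} (t κ z E : ℝ) (B : Fin r → Blk) (j : ℕ) : Prop := ∀ A : ℕ,
  ∀ᶠ x : ℝ in atTop, ∀ N : Fin r ⊕ Fin j → ℕ, (∀ i, 1 ≤ N i) →
    |Dl t x ((∏ i : Fin r ⊕ Fin j,
        dy (N i) (Sum.elim (fun i => bf x (B i)) (fun _ => PP x κ z) i)) * bf x (fr κ))| ≤
      x / Real.log x ^ A + E * (∏ i : Fin r ⊕ Fin j,
        ms ⌊2 * x⌋₊ (dy (N i) (Sum.elim (fun i => bf x (B i)) (fun _ => PP x κ z) i))) *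
        (x / Real.log x)

/-- the alternative of `DustOK` at fixed parameters -/
def Alt {r : ℕ} (τ η η' κ z : ℝ) (K : ℕ) (B : Fin r → Blk) : Prop :=
  ∀ (j : ℕ) (a : Fin r → ℝ) (q : Fin j → ℝ) (b : ℝ), InBox B a → (∀ i, κ ≤ q i ∧ q i ≤ z) →
    0 ≤ b → ∑ i, a i + ∑ i, q i + b = 1 →
    E1pt τ η K (Sum.elim a q) b ∨
      E2pt τ η' K
        (fun o : Option (Fin r ⊕ Fin j) =>
          o.elim False (Sum.elim (fun i => (B i).IsP) fun _ => True))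
        (fun o => o.elim b (Sum.elim a q))

def OneStmt : Prop := T2Stmt → T1RStmt → T1Stmt → SZStmt → NomStmt → VanStmt → PrStmt → E1D →
  E2D → ∀ (τ t η η' κ z : ℝ) (K w r : ℕ) (B : Fin r → Blk), 1 / 3 ≤ t → t < τ → τ ≤ 1 / 2 →
    0 < η → η ≤ 1 / 1000 → 0 < η' → 13 ≤ w → 0 < κ → κ * (4 * w + 6) ≤ lev τ t η →
    Alt τ η η' κ z K B → ∀ j, OneOK t κ z (2 ^ 28 / 4 ^ w / κ) B j

/-- summation over the boxes -/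
def RowStmt : Prop := DyStmt → ∀ (t κ z E M m : ℝ) (r j : ℕ) (B : Fin r → Blk), 0 ≤ E →
  OneOK t κ z E B j → (∀ᶠ x : ℝ in atTop, ∀ i, ms ⌊2 * x⌋₊ (bf x (B i)) ≤ M) →
  (∀ᶠ x : ℝ in atTop, ms ⌊2 * x⌋₊ (PP x κ z) ≤ m) → ∀ ε : ℝ, 0 < ε → ∀ᶠ x : ℝ in atTop,
    |Dl t x ((∏ i, bf x (B i)) * PP x κ z ^ j * bf x (fr κ))| ≤
      (ε + E * M ^ r * m ^ j) * (x / Real.log x)

/-- summation over the number of small primes -/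
def SumStmt : Prop := IdStmt → BadStmt → SZStmt → ∀ (t κ z E m : ℝ) (r : ℕ) (B : Fin r → Blk),
  0 < t → t < 1 / 2 → 0 < κ → κ ≤ z → 0 ≤ E → 0 ≤ m →
  (∀ (j : ℕ) (ε : ℝ), 0 < ε → ∀ᶠ x : ℝ in atTop,
    |Dl t x ((∏ i, bf x (B i)) * PP x κ z ^ j * bf x (fr κ))| ≤
      (ε + E * m ^ j) * (x / Real.log x)) →
  ∀ ε : ℝ, 0 < ε → ∀ᶠ x : ℝ in atTop,
    |Dl t x ((∏ i, bf x (B i)) * bf x (fr z))| ≤ (ε + E * Real.exp m) * (x / Real.log x)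

end Pool.Agent.MP_c853c5_nt.D
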