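import Pool.Agent.MP_c853c5_nt.D.Defs
import Pool.Agent.MP_c853c5_nt.S.Basic

set_option autoImplicit false

open Finset

namespace Pool.Agent.MP_c853c5_nt.D

open Pool.Agent.MP_c853c5_nt.S

lemma sum_Dy {L m : ℕ} (c : AF) (h : m < 2 ^ L) : ∑ e : Fin L, dy (2 ^ (e : ℕ)) c m = c m := by
  rcases eq_or_ne m 0 with rfl | h0
  · simp
  rw [sum_eq_single ⟨Nat.log 2 m, Nat.log_lt_of_lt_pow h0 h⟩]
  · exact if_pos ⟨Nat.pow_log_le_self 2 h0, by
      rw [← pow_succ']
      exact Nat.lt_pow_succ_log_self (by norm_num) m⟩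
  · intro e _ he
    refine if_neg fun k => he (Fin.ext (Nat.log_eq_of_pow_le_of_lt_pow k.1 ?_).symm)
    rw [pow_succ']
    exact k.2
  · exact fun k => absurd (mem_univ _) k

lemma mul_Dy {X : ℕ} {f f' g g' : AF} (h1 : ∀ d < X, f d = f' d) (h2 : ∀ d < X, g d = g' d) :
    ∀ n < X, (f * g) n = (f' * g') n := fun n hn => by
  rw [ArithmeticFunction.mul_apply, ArithmeticFunction.mul_apply]
  refine sum_congr rfl fun p hp => ?_
  rw [h1 _ ((Nat.divisor_le (Nat.fst_mem_divisors_of_mem_antidiagonal hp)).trans_lt hn),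
    h2 _ ((Nat.divisor_le (Nat.snd_mem_divisors_of_mem_antidiagonal hp)).trans_lt hn)]

lemma prod_Dy {ι : Type} {X : ℕ} (s : Finset ι) {f f' : ι → AF}
    (h : ∀ i, ∀ d < X, f i d = f' i d) : ∀ n < X, (∏ i ∈ s, f i) n = (∏ i ∈ s, f' i) n := by
  classical
  induction s using Finset.induction_on with
  | empty => simp
  | insert a s ha ih =>
    rw [prod_insert ha, prod_insert ha]
    exact mul_Dy (h a) ih

theorem dDy : DyStmt := by
  refine ⟨fun ι _ _ x Δ L c h _ hL => ?_, fun X L c hX => ?_⟩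
  · rw [← SS_sum, ← sum_mul, ← Fintype.piFinset_univ,
      ← prod_univ_sum (fun _ => univ) fun i (e : Fin L) => dy (2 ^ (e : ℕ)) (c i)]
    refine SS_congr Δ fun n hn => mul_Dy (X := 2 ^ L) (prod_Dy _ fun i d hd => ?_)
      (fun _ _ => rfl) n (by exact_mod_cast hn.2.trans_lt hL)
    rw [AF_sum, sum_Dy _ hd]
  · simp only [ms]
    rw [sum_comm]
    refine sum_congr rfl fun m hm => ?_
    rw [← sum_div, sum_Dy _ ((mem_Icc.1 hm).2.trans_lt hX)]

theorem dVan : VanStmt := by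
  classical
  intro ι _ x Δ g h _ h0
  obtain ⟨n, hn, h1⟩ := exists_ne_zero_of_sum_ne_zero h0
  obtain ⟨a, l, rfl, h2, h3⟩ := exists_of_mul_ne (left_ne_zero_of_mul h1)
  obtain ⟨m, rfl, h4⟩ := exists_of_prod_ne _ _ h2
  refine ⟨m, l, fun i => h4 i (mem_univ i), h3, ?_⟩
  exact_mod_cast win_of_mem hn

end Pool.Agent.MP_c853c5_nt.D
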