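import Pool.Agent.MP_c853c5_nt.D.Defs

set_option autoImplicit false

open Finset Filter

namespace Pool.Agent.MP_c853c5_nt.D

open Pool.Agent.MP_c853c5_nt.S

lemma e1_mono_Fin {ι : Type} [Fintype ι] {τ η η' : ℝ} {K : ℕ} {a : ι → ℝ} {b : ℝ}
    (h : E1pt τ η K a b) (hη : η' ≤ η) : E1pt τ η' K a b :=
  ⟨h.1, fun r v h0 h1 h2 h3 => (h.2 r v h0 h1 h2 h3).trans (by linarith)⟩

lemma small_Fin {C ε : ℝ} (hC : 0 < C) (hε : 0 < ε) :
    ∃ w : ℕ, 13 ≤ w ∧ C * (4 * (w : ℝ) + 6) ^ 2 / 4 ^ w ≤ ε := by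
  have h := tendsto_pow_const_div_const_pow_of_one_lt 2 (show (1 : ℝ) < 4 by norm_num)
  have h2 := (h.eventually (gt_mem_nhds (show (0 : ℝ) < ε / (100 * C) by positivity))).and
    (eventually_ge_atTop 13)
  obtain ⟨w, h3, h4⟩ := h2.exists
  refine ⟨w, h4, ?_⟩
  have h5 : (13 : ℝ) ≤ w := by exact_mod_cast h4
  have h6 : (4 * (w : ℝ) + 6) ^ 2 ≤ 100 * (w : ℝ) ^ 2 := by nlinarith
  have h7 : (0 : ℝ) < 4 ^ w := by positivity
  rw [div_lt_div_iff₀ h7 (by positivity)] at h3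
  rw [div_le_iff₀ h7]
  nlinarith [mul_le_mul_of_nonneg_left h6 hC.le]

theorem dFin (hT2 : T2Stmt) (hT1R : T1RStmt) (hT1 : T1Stmt) (hSZ : SZStmt) (hNom : NomStmt)
    (hVan : VanStmt) (hPr : PrStmt) (hDy : DyStmt) (hId : IdStmt) (hBad : BadStmt)
    (hMs : MsStmt) (hOne : OneStmt) (hRow : RowStmt) (hSum : SumStmt) (h1 : E1D) (h2 : E2D) :
    LeafS := by
  intro τ t ht hτ hτ2 r B z hB hz hD
  obtain ⟨η₀, hη₀, hD⟩ := hD
  obtain ⟨⟨M, hM1, hM⟩, hP⟩ := hMs
  set η := min η₀ (1 / 1000) with hηd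
  have hη : 0 < η := lt_min hη₀ (by norm_num)
  have hl : 0 < lev τ t η := lt_min (by positivity) (by linarith)
  set c := min (lev τ t η) (min z 1) with hc
  have c0 : 0 < c := lt_min hl (lt_min hz one_pos)
  have key : ∀ ε : ℝ, 0 < ε → ∀ᶠ x : ℝ in atTop,
      |Dl t x ((∏ i, bf x (B i)) * bf x (fr z))| ≤ ε * (x / Real.log x) := by
    intro ε hε
    obtain ⟨w, hw, hs⟩ := small_Fin (C := 2 ^ 28 * M ^ r * 6 / c ^ 2) (by positivity)
      (half_pos hε)
    have w0 : (1 : ℝ) ≤ 4 * (w : ℝ) + 6 := by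
      have : (0 : ℝ) ≤ w := Nat.cast_nonneg w
      linarith
    set κ := c / (4 * (w : ℝ) + 6) with hκ
    have κ0 : 0 < κ := by positivity
    have κc : κ ≤ c := div_le_self c0.le w0
    have κz : κ ≤ z := κc.trans ((min_le_right _ _).trans (min_le_left _ _))
    have κ1 : κ ≤ 1 := κc.trans ((min_le_right _ _).trans (min_le_right _ _))
    have κl : κ * (4 * w + 6) ≤ lev τ t η := by
      rw [hκ, div_mul_cancel₀ _ (by linarith)]
      exact min_le_left _ _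
    obtain ⟨η', hη', K, hK⟩ := hD κ κ0
    have hA : Alt τ η η' κ z K B := fun j a q b ha hq hb hs =>
      (hK j a q b ha hq hb hs).imp (fun h => e1_mono_Fin h (min_le_left _ _)) id
    have hO := hOne hT2 hT1R hT1 hSZ hNom hVan hPr h1 h2 τ t η η' κ z K w r B ht hτ hτ2 hη
      (min_le_right _ _) hη' hw κ0 κl hA
    have m0 : 0 ≤ Real.log (6 / κ) := Real.log_nonneg (by
      rw [le_div_iff₀ κ0]
      linarith)
    have hR := hSum hId hBad hSZ t κ z (2 ^ 28 / 4 ^ w / κ * M ^ r) (Real.log (6 / κ)) r B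
      (by linarith) (by linarith) κ0 κz (by positivity) m0
      (fun j => hRow hDy t κ z _ M _ r j B (by positivity) (hO j)
        (hM.mono fun x hx i => hx _ (hB i)) (hP κ z κ0 κ1)) (ε / 2) (half_pos hε)
    filter_upwards [hR, eventually_gt_atTop 1] with x hx x1
    refine hx.trans (mul_le_mul_of_nonneg_right ?_
      (div_nonneg (by linarith) (Real.log_pos x1).le))
    rw [Real.exp_log (by positivity)]
    have e : 2 ^ 28 / 4 ^ w / κ * M ^ r * (6 / κ) =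
        2 ^ 28 * M ^ r * 6 / c ^ 2 * (4 * (w : ℝ) + 6) ^ 2 / 4 ^ w := by
      rw [hκ]
      field_simp
    rw [e]
    linarith
  refine ⟨fun ε hε => (key ε hε).mono fun x hx => ?_, fun ε hε => (key ε hε).mono fun x hx => ?_⟩
  · rw [zero_add]
    exact (abs_le.1 hx).1
  · rw [zero_add]
    exact (abs_le.1 hx).2

end Pool.Agent.MP_c853c5_nt.D
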