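import Pool.Agent.MP_c853c5_nt.D.Defs

/-!
The expansion of the free factor.
-/

set_option autoImplicit false

open Finset Filter

namespace Pool.Agent.MP_c853c5_nt.D

open Pool.Agent.MP_c853c5_nt.S

open Classical in
/-- the rough numbers, without truncation -/
noncomputable def ro_Id (x a : ℝ) : AF :=
  ⟨fun m => if m ≠ 0 ∧ Rough x a m then 1 else 0, by simp⟩

lemma pp_cases_Id (x κ z : ℝ) (p : ℕ) : PP x κ z p = 0 ∨ (p.Prime ∧ PP x κ z p = 1) := by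
  simp only [PP, prI, ArithmeticFunction.coe_mk]
  split_ifs with h
  · exact Or.inr ⟨h.2.2, rfl⟩
  · exact Or.inl rfl

lemma pp_iff_Id {x : ℝ} (hx : 0 < x) (κ z : ℝ) (p : ℕ) :
    PP x κ z p = 1 ↔ x ^ κ < p ∧ (p : ℝ) ≤ x ^ z ∧ p.Prime := by
  rw [← Nat.floor_lt (Real.rpow_pos_of_pos hx κ).le,
    ← Nat.le_floor_iff (Real.rpow_pos_of_pos hx z).le]
  simp only [PP, prI, ArithmeticFunction.coe_mk]
  split_ifs with h
  · exact iff_of_true rfl h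
  · exact iff_of_false zero_ne_one h

lemma bf_fr_Id {x : ℝ} (hx : 1 < x) (a : ℝ) {m : ℕ} (hm : m ≠ 0) (h2 : (m : ℝ) ≤ x ^ 2) :
    bf x (fr a) m = ro_Id x a m := by
  have h1 : x ^ (-1 : ℝ) < m :=
    (Real.rpow_lt_one_of_one_lt_of_neg hx (by norm_num)).trans_le
      (by exact_mod_cast Nat.one_le_iff_ne_zero.2 hm)
  have h3 : (m : ℝ) ≤ x ^ (2 : ℝ) := by rwa [Real.rpow_two]
  simp only [bf, ro_Id, ArithmeticFunction.coe_mk]
  by_cases h : Rough x a m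
  · rw [if_pos ⟨hm, h1, h3, h, by simp [fr]⟩, if_pos ⟨hm, h⟩]
  · rw [if_neg fun h' => h h'.2.2.2.1, if_neg fun h' => h h'.2]

lemma cnt_Id {x κ : ℝ} (hx : 1 < x) (hκ : 0 < κ) (z : ℝ) {d : ℕ} (hd : d ≠ 0)
    (h2 : (d : ℝ) ≤ x ^ 2) : B.cntP (PP x κ z) d ≤ ⌈2 / κ⌉₊ := by
  have hx0 : 0 < x := zero_lt_one.trans hx
  have key : ∀ s : Finset ℕ, s ⊆ d.primeFactors → (∀ p ∈ s, x ^ κ < p) → s.card ≤ ⌈2 / κ⌉₊ := by
    intro s hs hp
    have h3 : ∏ p ∈ s, p ≤ d := Nat.le_of_dvd (Nat.pos_of_ne_zero hd)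
      ((prod_dvd_prod_of_subset _ _ _ hs).trans (Nat.prod_primeFactors_dvd d))
    have h4 : (x ^ κ) ^ s.card ≤ ∏ p ∈ s, (p : ℝ) := by
      rw [← prod_const]
      exact prod_le_prod (fun _ _ => (Real.rpow_pos_of_pos hx0 κ).le) fun p h => (hp p h).le
    have h5 : x ^ (κ * s.card) ≤ x ^ (2 : ℝ) := by
      rw [Real.rpow_mul_natCast hx0.le, Real.rpow_two]
      refine h4.trans (le_trans ?_ h2)
      rw [← Nat.cast_prod]
      exact Nat.cast_le.2 h3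
    have h6 : (s.card : ℝ) ≤ 2 / κ := by
      rw [le_div_iff₀ hκ, mul_comm]
      exact (Real.rpow_le_rpow_left_iff hx).1 h5
    exact_mod_cast h6.trans (Nat.le_ceil _)
  unfold B.cntP
  exact key _ (filter_subset _ _) fun p hp => ((pp_iff_Id hx0 κ z p).1 (mem_filter.1 hp).2).1

lemma free_Id {x κ z : ℝ} (hx : 1 < x) (hκ : 0 < κ) (hz : κ ≤ z) {d : ℕ} (hd : d ≠ 0)
    (h2 : (d : ℝ) ≤ x ^ 2) (hg : ∀ p : ℕ, p.Prime → x ^ κ < p → ¬p ^ 2 ∣ d) :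
    bf x (fr z) d = ∑ j ∈ range (⌈2 / κ⌉₊ + 1), (-1) ^ j / (j.factorial : ℝ) *
      (PP x κ z ^ j * bf x (fr κ)) d := by
  have hx0 : 0 < x := zero_lt_one.trans hx
  have h1 : ∀ j : ℕ, (PP x κ z ^ j * bf x (fr κ)) d = (PP x κ z ^ j * ro_Id x κ) d := fun j =>
    B.mul_apply_congr _ fun e he => bf_fr_Id hx κ (ne_zero_of_dvd_ne_zero hd he)
      (le_trans (by exact_mod_cast Nat.le_of_dvd (Nat.pos_of_ne_zero hd) he) h2)
  have hR : ∀ p m : ℕ, PP x κ z p = 1 → m ≠ 0 → ro_Id x κ (p * m) = ro_Id x κ m := by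
    intro p m hp hm
    obtain ⟨h3, -, h4⟩ := (pp_iff_Id hx0 κ z p).1 hp
    simp only [ro_Id, ArithmeticFunction.coe_mk]
    by_cases h : Rough x κ m
    · have h7 : Rough x κ (p * m) := fun q hq h5 => by
        rcases (Nat.Prime.dvd_mul hq).1 h5 with h6 | h6
        · rwa [(Nat.prime_dvd_prime_iff_eq hq h4).1 h6]
        · exact h q hq h6
      rw [if_pos ⟨mul_ne_zero h4.ne_zero hm, h7⟩, if_pos ⟨hm, h⟩]
    · rw [if_neg fun h' => h fun q hq h5 => h'.2 q hq (h5.mul_left p), if_neg fun h' => h h'.2]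
  simp only [h1]
  rw [B.incl_excl (pp_cases_Id x κ z) hR hd (fun p hp => hg p ((pp_iff_Id hx0 κ z p).1 hp).2.2
    ((pp_iff_Id hx0 κ z p).1 hp).1) (cnt_Id hx hκ z hd h2), bf_fr_Id hx z hd h2]
  have h3 : B.cntP (PP x κ z) d = 0 ↔ ∀ p : ℕ, p.Prime → p ∣ d → x ^ κ < p → x ^ z < p := by
    unfold B.cntP
    rw [card_eq_zero, filter_eq_empty_iff]
    refine ⟨fun h p hp h4 h5 => ?_, fun h p hp h4 => ?_⟩
    · by_contra h6
      exact h (Nat.mem_primeFactors.2 ⟨hp, h4, hd⟩)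
        ((pp_iff_Id hx0 κ z p).2 ⟨h5, not_lt.1 h6, hp⟩)
    · obtain ⟨h5, h6, h7⟩ := (pp_iff_Id hx0 κ z p).1 h4
      exact (h p h7 (Nat.dvd_of_mem_primeFactors hp) h5).not_ge h6
  have h4 : x ^ κ ≤ x ^ z := Real.rpow_le_rpow_of_exponent_le hx.le hz
  simp only [ro_Id, ArithmeticFunction.coe_mk]
  by_cases h5 : Rough x z d
  · rw [if_pos ⟨hd, h5⟩, if_pos (h3.2 fun p hp h6 _ => h5 p hp h6),
      if_pos ⟨hd, fun p hp h6 => h4.trans_lt (h5 p hp h6)⟩]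
  · rw [if_neg fun h => h5 h.2]
    split_ifs with h6 h7
    · exact absurd (fun p hp h8 => h3.1 h6 p hp h8 (h7.2 p hp h8)) h5
    · rfl
    · rfl

lemma bf_le_Id (x : ℝ) (B : Blk) (d : ℕ) : |bf x B d| ≤ 1 := by
  simp only [bf, ArithmeticFunction.coe_mk]
  split_ifs <;> simp

lemma mul_le_Id {X : ℕ} {Δ : ℝ} (h1 : 1 ≤ Δ) (hΔ : ∀ n : ℕ, n ≤ X → (n.divisors.card : ℝ) ≤ Δ)
    {f g : AF} {a b : ℕ} (hf : ∀ n : ℕ, n ≤ X → |f n| ≤ Δ ^ a)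
    (hg : ∀ n : ℕ, n ≤ X → |g n| ≤ Δ ^ b) : ∀ n : ℕ, n ≤ X → |(f * g) n| ≤ Δ ^ (a + b + 1) := by
  intro n hn
  rcases Nat.eq_zero_or_pos n with rfl | h0
  · simp only [ArithmeticFunction.map_zero, abs_zero]
    positivity
  refine (B.abs_mul_apply_le (by positivity) (fun d hd => hf d ((Nat.le_of_dvd h0 hd).trans hn))
    fun d hd => hg d ((Nat.le_of_dvd h0 hd).trans hn)).trans ?_
  rw [pow_succ', pow_add]
  exact mul_le_mul_of_nonneg_right (hΔ n hn) (by positivity)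

lemma div_Id (m k : ℕ) {δ : ℝ} (hδ : 0 < δ) : ∀ᶠ x : ℝ in atTop, ∃ Δ : ℝ, 1 ≤ Δ ∧
    (∀ n : ℕ, n ≤ ⌊x ^ 2⌋₊ → (n.divisors.card : ℝ) ≤ Δ) ∧ k * Δ ^ (m + 1) ≤ x ^ δ := by
  have hε : 0 < δ / (4 * (m + 1 : ℕ)) := by positivity
  obtain ⟨C, hC, h⟩ := Pool.Agent.MP_2a1f0e_nt.divisor_bound hε
  filter_upwards [eventually_ge_atTop 1, (tendsto_rpow_atTop (half_pos hδ)).eventually_ge_atTop
    (k * C ^ (m + 1))] with x hx h1
  have hx0 : 0 < x := zero_lt_one.trans_le hx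
  refine ⟨C * (x ^ 2) ^ (δ / (4 * (m + 1 : ℕ))), one_le_mul_of_one_le_of_one_le hC
    (Real.one_le_rpow (one_le_pow₀ hx) hε.le), fun n hn => (h n).trans ?_, ?_⟩
  · have h2 : (n : ℝ) ≤ x ^ 2 := (Nat.le_floor_iff (by positivity)).1 hn
    gcongr
  · have h2 : ((x ^ 2) ^ (δ / (4 * (m + 1 : ℕ)))) ^ (m + 1) = x ^ (δ / 2) := by
      rw [← Real.rpow_natCast x 2, ← Real.rpow_mul hx0.le, ← Real.rpow_mul_natCast hx0.le]
      congr 1
      have : ((m + 1 : ℕ) : ℝ) ≠ 0 := by positivity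
      field_simp
      norm_num
    rw [mul_pow, h2, ← mul_assoc]
    calc k * C ^ (m + 1) * x ^ (δ / 2) ≤ x ^ (δ / 2) * x ^ (δ / 2) := by gcongr
      _ = x ^ δ := by rw [← Real.rpow_add hx0, add_halves]

lemma prod_le_Id {ι : Type} (s : Finset ι) (f : ι → AF) (hf : ∀ i ∈ s, ∀ d, |f i d| ≤ 1) {X : ℕ}
    {Δ : ℝ} (h1 : 1 ≤ Δ) (hΔ : ∀ n : ℕ, n ≤ X → (n.divisors.card : ℝ) ≤ Δ) :
    ∀ n : ℕ, n ≤ X → |(∏ i ∈ s, f i) n| ≤ Δ ^ s.card :=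
  B.abs_prod_apply_le s f hf h1 hΔ

theorem dId : IdStmt := by
  intro r B κ z hκ hz
  refine ⟨⌈2 / κ⌉₊ + 1, fun δ hδ => ?_⟩
  filter_upwards [eventually_ge_atTop 2,
    div_Id (r + (⌈2 / κ⌉₊ + 1) + 1) (⌈2 / κ⌉₊ + 1 + 1) hδ] with x hx ⟨Δ, h1, hΔ, hk⟩ n hn
  have hx1 : 1 < x := by linarith
  have h2 : (n : ℝ) ≤ x ^ 2 := by nlinarith
  rcases eq_or_ne n 0 with rfl | h0
  · simp
  by_cases hb : ∃ p : ℕ, p.Prime ∧ x ^ κ < p ∧ p ^ 2 ∣ n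
  · have h3 : bad x κ n = 1 := by
      simp only [bad, ArithmeticFunction.coe_mk]
      exact if_pos ⟨h0, hb⟩
    have hn' : n ≤ ⌊x ^ 2⌋₊ := Nat.le_floor h2
    have hF : ∀ n : ℕ, n ≤ ⌊x ^ 2⌋₊ → |(∏ i, bf x (B i)) n| ≤ Δ ^ r := by
      simpa using prod_le_Id univ (fun i => bf x (B i)) (fun i _ => bf_le_Id x (B i)) h1 hΔ
    have hP : ∀ j n : ℕ, n ≤ ⌊x ^ 2⌋₊ → |(PP x κ z ^ j) n| ≤ Δ ^ j := fun j => by
      simpa using prod_le_Id (range j) (fun _ => PP x κ z) (fun _ _ d => by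
        rcases pp_cases_Id x κ z d with h | h
        · simp [h]
        · simp [h.2]) h1 hΔ
    have hR : ∀ (a : ℝ) (n : ℕ), n ≤ ⌊x ^ 2⌋₊ → |bf x (fr a) n| ≤ Δ ^ 0 := fun a n _ => by
      simpa using bf_le_Id x (fr a) n
    have h4 := (mul_le_Id h1 hΔ hF (hR z) n hn').trans
      (pow_le_pow_right₀ h1 (show r + 0 + 1 ≤ r + (⌈2 / κ⌉₊ + 1) + 1 + 1 by omega))
    have h5 : ∀ j ∈ range (⌈2 / κ⌉₊ + 1), |(-1) ^ j / (j.factorial : ℝ) *
        ((∏ i, bf x (B i)) * PP x κ z ^ j * bf x (fr κ)) n| ≤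
        Δ ^ (r + (⌈2 / κ⌉₊ + 1) + 1 + 1) := by
      intro j hj
      have h6 := (mul_le_Id h1 hΔ (mul_le_Id h1 hΔ hF (hP j)) (hR κ) n hn').trans
        (pow_le_pow_right₀ h1 (show r + j + 1 + 0 + 1 ≤ r + (⌈2 / κ⌉₊ + 1) + 1 + 1 by
          have := mem_range.1 hj
          omega))
      have h7 : |(-1) ^ j / (j.factorial : ℝ)| ≤ 1 := by
        rw [abs_div, abs_pow, abs_neg, abs_one, one_pow, Nat.abs_cast]
        exact (div_le_one (by positivity)).2 (by exact_mod_cast j.factorial_pos)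
      rw [abs_mul]
      exact (mul_le_of_le_one_left (abs_nonneg _) h7).trans h6
    have h6 := (abs_sum_le_sum_abs _ _).trans (sum_le_card_nsmul _ _ _ h5)
    rw [card_range, nsmul_eq_mul] at h6
    rw [h3, mul_one]
    refine (abs_sub _ _).trans ((add_le_add h4 h6).trans (le_trans (le_of_eq ?_) hk))
    push_cast
    ring
  · have h3 : bad x κ n = 0 := by
      simp only [bad, ArithmeticFunction.coe_mk]
      exact if_neg fun h => hb h.2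
    rw [h3, mul_zero, abs_nonpos_iff, sub_eq_zero]
    simp only [mul_assoc]
    simp only [ArithmeticFunction.mul_apply (f := ∏ i, bf x (B i)), mul_sum]
    rw [sum_comm]
    refine sum_congr rfl fun a ha => ?_
    have h4 := Nat.dvd_of_mem_divisors (Nat.snd_mem_divisors_of_mem_antidiagonal ha)
    rw [free_Id hx1 hκ hz (ne_zero_of_dvd_ne_zero h0 h4)
      (le_trans (by exact_mod_cast Nat.le_of_dvd (Nat.pos_of_ne_zero h0) h4) h2)
      (fun p hp h5 h6 => hb ⟨p, hp, h5, h6.trans h4⟩), mul_sum]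
    exact sum_congr rfl fun j _ => by ring

end Pool.Agent.MP_c853c5_nt.D
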