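import Pool.Agent.MP_c853c5_nt.D.Defs
import Pool.Agent.MP_c853c5_nt.Z.PMain

set_option autoImplicit false

open Finset Filter

namespace Pool.Agent.MP_c853c5_nt.D

open Pool.Agent.MP_c853c5_nt.S

lemma rcp_Ms {κ : ℝ} (h0 : 0 < κ) (h1 : κ ≤ 1) :
    ∀ᶠ x : ℝ in atTop, Z.rcp (x ^ κ) (x ^ (2 : ℝ)) ≤ Real.log (6 / κ) := by
  obtain ⟨y, -, hy⟩ := Z.mert_all 1 one_pos
  filter_upwards [(tendsto_rpow_atTop h0).eventually_ge_atTop y, eventually_gt_atTop 1]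
    with x hx hx1
  have hx0 : 0 < x := by linarith
  have h2 := (abs_le.1 (hy _ _ hx
    (Real.rpow_le_rpow_of_exponent_le hx1.le (show κ ≤ 2 by linarith)))).2
  have hl : 0 < Real.log x := Real.log_pos hx1
  rw [Real.log_rpow hx0, Real.log_rpow hx0, mul_div_mul_right _ _ hl.ne'] at h2
  have h3 : Real.log (6 / κ) = Real.log (2 / κ) + Real.log 3 := by
    rw [← Real.log_mul (by positivity) (by norm_num)]
    congr 1
    ring
  have h4 : 1 ≤ Real.log 3 := by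
    rw [Real.le_log_iff_exp_le (by norm_num)]
    linarith [Real.exp_one_lt_d9]
  linarith

lemma le_floor_Ms {x : ℝ} (hx : 2 ≤ x) {m : ℕ} (hm : m ≤ ⌊2 * x⌋₊) : m ≤ ⌊x ^ (2 : ℝ)⌋₊ := by
  refine hm.trans (Nat.floor_le_floor ?_)
  rw [Real.rpow_two]
  nlinarith

lemma euler_Ms (s : Finset ℕ) (X : ℕ) (f : ℕ → ℝ) (h1 : ∀ m, f m ≤ 1)
    (h2 : ∀ m ∈ Icc 1 X, f m = 0 ∨ ∀ p : ℕ, p.Prime → p ∣ m → p ∈ s) :
    ∑ m ∈ Icc 1 X, f m / m ≤ Real.exp (2 * ∑ p ∈ s.filter Nat.Prime, 1 / (p : ℝ)) := by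
  let g : ℕ →* ℝ := ⟨⟨fun n => (n : ℝ)⁻¹, by simp⟩, fun a b => by simp [mul_comm]⟩
  have hg : ∀ n : ℕ, g n = (n : ℝ)⁻¹ := fun _ => rfl
  have hf : ∀ {p : ℕ}, p.Prime → ‖g p‖ < 1 := fun {p} hp => by
    rw [hg, Real.norm_of_nonneg (by positivity)]
    exact inv_lt_one_of_one_lt₀ (by exact_mod_cast hp.one_lt)
  have h3 := hasSum_subtype_iff_indicator.1
    (EulerProduct.summable_and_hasSum_factoredNumbers_prod_filter_prime_geometric hf s).2
  have h0 : ∀ n : ℕ, 0 ≤ (Nat.factoredNumbers s).indicator g n := fun n =>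
    Set.indicator_nonneg (fun m _ => by rw [hg]; positivity) n
  refine le_trans (sum_le_sum fun m hm => ?_)
    ((sum_le_hasSum (Icc 1 X) (fun n _ => h0 n) h3).trans ?_)
  · rcases h2 m hm with h | h
    · rw [h, zero_div]
      exact h0 m
    · rw [Set.indicator_of_mem (Nat.mem_factoredNumbers'.2 h), hg, div_eq_mul_inv]
      exact mul_le_of_le_one_left (by positivity) (h1 m)
  · rw [mul_sum, Real.exp_sum]
    have key : ∀ p ∈ s.filter Nat.Prime, 0 < (p : ℝ)⁻¹ ∧ (p : ℝ)⁻¹ ≤ 1 / 2 := fun p hp => by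
      have h4 : (2 : ℝ) ≤ p := by exact_mod_cast (mem_filter.1 hp).2.two_le
      exact ⟨by positivity, by rw [one_div]; exact inv_anti₀ (by norm_num) h4⟩
    refine prod_le_prod (fun p hp => ?_) fun p hp => ?_
    · rw [hg]
      exact inv_nonneg.2 (by linarith [(key p hp).2])
    · obtain ⟨h4, h5⟩ := key p hp
      rw [hg, one_div]
      refine le_trans ?_ (Real.add_one_le_exp _)
      rw [inv_le_iff_one_le_mul₀ (by linarith)]
      nlinarith

theorem dMs : MsStmt := by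
  refine ⟨⟨Real.exp (2 * Real.log (6 / (1 / 100))), Real.one_le_exp ?_, ?_⟩,
    fun κ z h0 h1 => ?_⟩
  · exact mul_nonneg (by norm_num) (Real.log_nonneg (by norm_num))
  · filter_upwards [rcp_Ms (κ := 1 / 100) (by norm_num) (by norm_num), eventually_ge_atTop 2]
      with x hx hx2 B hB
    refine (euler_Ms (Ioc ⌊x ^ (1 / 100 : ℝ)⌋₊ ⌊x ^ (2 : ℝ)⌋₊) ⌊2 * x⌋₊ (bf x B) (fun m => ?_)
      fun m hm => ?_).trans (Real.exp_le_exp.2 (mul_le_mul_of_nonneg_left hx (by norm_num)))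
    · by_cases h : B.Mem x m
      · exact (if_pos h).le
      · exact (if_neg h).trans_le zero_le_one
    · by_cases h : B.Mem x m
      · refine Or.inr fun p hp hd => mem_Ioc.2 ⟨?_, ?_⟩
        · rw [Nat.floor_lt (by positivity)]
          exact (Real.rpow_le_rpow_of_exponent_le (by linarith) hB).trans_lt (h.2.2.2.1 p hp hd)
        · exact le_floor_Ms hx2 ((Nat.le_of_dvd (mem_Icc.1 hm).1 hd).trans (mem_Icc.1 hm).2)
      · exact Or.inl (if_neg h)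
  · filter_upwards [rcp_Ms h0 h1, eventually_ge_atTop 2] with x hx hx2
    refine le_trans ?_ hx
    have h2 : ms ⌊2 * x⌋₊ (PP x κ z) = ∑ m ∈ (Icc 1 ⌊2 * x⌋₊).filter
        (fun m => ⌊x ^ κ⌋₊ < m ∧ m ≤ ⌊x ^ z⌋₊ ∧ m.Prime), 1 / (m : ℝ) := by
      rw [sum_filter]
      refine sum_congr rfl fun m _ => ?_
      change (if _ then (1 : ℝ) else 0) / _ = _
      split_ifs <;> simp
    rw [h2]
    refine sum_le_sum_of_subset_of_nonneg (fun m hm => ?_) fun _ _ _ => by positivity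
    obtain ⟨h3, h4, -, h5⟩ := mem_filter.1 hm
    exact mem_filter.2 ⟨mem_Ioc.2 ⟨h4, le_floor_Ms hx2 (mem_Icc.1 h3).2⟩, h5⟩

end Pool.Agent.MP_c853c5_nt.D
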