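import Pool.Agent.MP_c853c5_nt.D.Defs

/-!
The nominal point of a dyadic box.
-/

set_option autoImplicit false

open Finset Filter

namespace Pool.Agent.MP_c853c5_nt.D

open Pool.Agent.MP_c853c5_nt.S

theorem shrink_Nom {ι : Type} [Fintype ι] (l α : ι → ℝ) {ε : ℝ} (hε : 0 ≤ ε) (h : ∀ i, l i ≤ α i)
    (h1 : ∑ i, l i ≤ 1) (h2 : ∑ i, α i ≤ 1 + ε) : ∃ (a : ι → ℝ) (b : ℝ),
      (∀ i, l i ≤ a i ∧ a i ≤ α i ∧ α i ≤ a i + ε) ∧ 0 ≤ b ∧ ∑ i, a i + b = 1 := by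
  rcases le_or_gt (∑ i, α i) 1 with k | k
  · exact ⟨α, 1 - ∑ i, α i, fun i => ⟨h i, le_rfl, by linarith⟩, by linarith, by ring⟩
  have h3 : 0 < ∑ i, α i - ∑ i, l i := by linarith
  obtain ⟨s, h4, h5, h6⟩ : ∃ s : ℝ, 0 ≤ s ∧ s ≤ 1 ∧ s * (∑ i, α i - ∑ i, l i) = 1 - ∑ i, l i :=
    ⟨_, div_nonneg (by linarith) h3.le, (div_le_one h3).2 (by linarith),
      div_mul_cancel₀ _ h3.ne'⟩
  refine ⟨fun i => l i + s * (α i - l i), 0, fun i => ?_, le_rfl, ?_⟩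
  · have h7 : α i - l i ≤ ∑ i, α i - ∑ i, l i := by
      rw [← sum_sub_distrib]
      exact single_le_sum (f := fun i => α i - l i) (fun j _ => sub_nonneg.2 (h j)) (mem_univ i)
    have h8 := sub_nonneg.2 (h i)
    have h9 := mul_le_mul_of_nonneg_left h7 (sub_nonneg.2 h5)
    refine ⟨by nlinarith, by nlinarith, by nlinarith⟩
  · rw [sum_add_distrib, ← mul_sum, sum_sub_distrib, h6]
    ring

theorem dNom : NomStmt := by
  intro ι _ lo hi γ hγ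
  obtain ⟨ε, h1, h2, h3⟩ : ∃ ε : ℝ, 0 < ε ∧ ε ≤ γ ∧
      (∑ i, max (lo i) 0 ≤ 1 + ε → ∑ i, max (lo i) 0 ≤ 1) := by
    rcases le_or_gt (∑ i, max (lo i) 0) 1 with k | k
    · exact ⟨γ, hγ, le_rfl, fun _ => k⟩
    · refine ⟨min γ ((∑ i, max (lo i) 0 - 1) / 2), lt_min hγ (by linarith), min_le_left _ _,
        fun e => ?_⟩
      have := min_le_right γ ((∑ i, max (lo i) 0 - 1) / 2)
      linarith
  filter_upwards [eventually_gt_atTop 1, (tendsto_rpow_atTop h1).eventually_ge_atTop 2]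
    with x hx h4 N m h h5
  have x0 : 0 < x := by linarith
  have m1 : ∀ i, (1 : ℝ) ≤ m i := fun i => by exact_mod_cast (h i).1.trans (h i).2.1
  have m0 : ∀ i, (0 : ℝ) < m i := fun i => by linarith [m1 i]
  have e : ∀ i, x ^ Real.logb x (m i) = m i := fun i => Real.rpow_logb x0 hx.ne' (m0 i)
  have h6 : ∀ i, max (lo i) 0 ≤ Real.logb x (m i) := fun i =>
    max_le ((Real.le_logb_iff_rpow_le hx (m0 i)).2 (h i).2.2.2.1) (Real.logb_nonneg hx (m1 i))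
  have h7 : ∑ i, Real.logb x (m i) ≤ 1 + ε := by
    rw [← Real.rpow_le_rpow_left_iff hx, Real.rpow_sum_of_pos x0, Real.rpow_add x0, Real.rpow_one]
    simp only [e]
    nlinarith
  obtain ⟨a, b, k1, k2, k3⟩ := shrink_Nom _ _ h1.le h6 (h3 ((sum_le_sum fun i _ => h6 i).trans h7)) h7
  refine ⟨a, b, fun i => ⟨(le_max_right _ _).trans (k1 i).1, (le_max_left _ _).trans (k1 i).1,
    (k1 i).2.1.trans ((Real.logb_le_iff_le_rpow hx (m0 i)).2 (h i).2.2.2.2)⟩, k2, k3,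
    fun i => ⟨?_, ?_⟩⟩
  · have a1 : x ^ (a i - γ) ≤ x ^ (Real.logb x (m i) - ε) :=
      Real.rpow_le_rpow_of_exponent_le hx.le (by linarith [(k1 i).2.1])
    have a2 : (m i : ℝ) ≤ 2 * N i := by exact_mod_cast (h i).2.2.1.le
    rw [Real.rpow_sub x0 (Real.logb x _), e] at a1
    refine a1.trans ((div_le_iff₀ (by linarith)).2 (a2.trans ?_))
    rw [mul_comm]
    exact mul_le_mul_of_nonneg_left h4 (Nat.cast_nonneg _)
  · have a2 : (N i : ℝ) ≤ m i := by exact_mod_cast (h i).2.1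
    exact a2.trans ((e i).ge.trans
      (Real.rpow_le_rpow_of_exponent_le hx.le (by linarith [(k1 i).2.2])))

end Pool.Agent.MP_c853c5_nt.D
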