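import Pool.Agent.MP_c853c5_nt.D.Defs

/-!
The bound for one dyadic box.
-/

set_option autoImplicit false

open Finset Filter

namespace Pool.Agent.MP_c853c5_nt.D

open Pool.Agent.MP_c853c5_nt.S

lemma near_One {ι : Type} {x γ γ' : ℝ} {a : ι → ℝ} {N : ι → ℕ} (hx : 1 ≤ x) (h : γ ≤ γ')
    (hN : Near x γ a N) : Near x γ' a N := fun i =>
  ⟨(Real.rpow_le_rpow_of_exponent_le hx (by linarith)).trans (hN i).1,
    (hN i).2.trans (Real.rpow_le_rpow_of_exponent_le hx (by linarith))⟩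

lemma log_One (s : ℝ) (hs : 0 < s) (A : ℕ) :
    ∀ᶠ x : ℝ in atTop, x ^ (1 - s) ≤ x / Real.log x ^ A := by
  have h := (isLittleO_log_rpow_rpow_atTop (A : ℝ) hs).bound one_pos
  filter_upwards [h, eventually_gt_atTop 1] with x h1 hx
  have hx0 : 0 < x := by linarith
  have hl : 0 < Real.log x ^ A := pow_pos (Real.log_pos hx) A
  have hp : 0 < x ^ s := Real.rpow_pos_of_pos hx0 s
  rw [Real.rpow_natCast, Real.norm_eq_abs, Real.norm_eq_abs, abs_of_pos hl, abs_of_pos hp,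
    one_mul] at h1
  rw [Real.rpow_sub hx0, Real.rpow_one]
  exact div_le_div_of_nonneg_left hx0.le hl h1

lemma dy_apply_One (N : ℕ) (c : AF) (n : ℕ) :
    dy N c n = if N ≤ n ∧ n < 2 * N then c n else 0 := rfl

lemma dy_ne_One {N n : ℕ} {c : AF} (h : dy N c n ≠ 0) : (N ≤ n ∧ n < 2 * N) ∧ c n ≠ 0 := by
  rw [dy_apply_One] at h
  split_ifs at h with k
  · exact ⟨k, h⟩
  · exact absurd rfl h

lemma dy_nn_One (N : ℕ) {c : AF} (h : ∀ n, 0 ≤ c n ∧ c n ≤ 1) (n : ℕ) :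
    0 ≤ dy N c n ∧ dy N c n ≤ 1 := by
  rw [dy_apply_One]
  split_ifs
  · exact h n
  · norm_num

lemma slot_One {N : ℕ} (hN : 1 ≤ N) {c : AF} (h : ∀ n, 0 ≤ c n ∧ c n ≤ 1) : Slot N (dy N c) :=
  ⟨hN, fun n => by
    rw [abs_of_nonneg (dy_nn_One N h n).1]
    exact (dy_nn_One N h n).2, fun _ k => (dy_ne_One k).1⟩

open Classical in
lemma bf_apply_One (x : ℝ) (B : Blk) (n : ℕ) : bf x B n = if B.Mem x n then 1 else 0 := rfl

lemma bf_nn_One (x : ℝ) (B : Blk) (n : ℕ) : 0 ≤ bf x B n ∧ bf x B n ≤ 1 := by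
  rw [bf_apply_One]
  split_ifs <;> norm_num

lemma bf_ne_One {x : ℝ} {B : Blk} {n : ℕ} (h : bf x B n ≠ 0) : B.Mem x n := by
  rw [bf_apply_One] at h
  by_contra k
  exact h (if_neg k)

lemma prI_apply_One (P Q n : ℕ) :
    prI P Q n = if P < n ∧ n ≤ Q ∧ n.Prime then 1 else 0 := rfl

lemma PP_nn_One (x κ z : ℝ) (n : ℕ) : 0 ≤ PP x κ z n ∧ PP x κ z n ≤ 1 := by
  rw [PP, prI_apply_One]
  split_ifs <;> norm_num

lemma PP_ne_One {x κ z : ℝ} {n : ℕ} (hx : 0 ≤ x) (h : PP x κ z n ≠ 0) :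
    x ^ κ ≤ n ∧ (n : ℝ) ≤ x ^ z := by
  rw [PP, prI_apply_One] at h
  split_ifs at h with k
  · exact ⟨(Nat.lt_of_floor_lt k.1).le, (Nat.le_floor_iff (Real.rpow_nonneg hx z)).1 k.2.1⟩
  · exact absurd rfl h

lemma ms_nn_One (X : ℕ) {f : AF} (h : ∀ n, 0 ≤ f n) : 0 ≤ ms X f :=
  sum_nonneg fun m _ => div_nonneg (h m) (Nat.cast_nonneg m)

theorem dOne : OneStmt := by
  intro hT2 hT1R hT1 hSZ hNom hVan hPr hE1 hE2 τ t η η' κ z K w r B ht htτ hτ hη hη1 hη' hw hκ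
    hlev hAlt j A
  obtain ⟨γ2, hγ2, h2⟩ := hT2 hE2 (Fin r ⊕ Fin j) τ t η' K A ht htτ hτ hη'
  obtain ⟨γ1, hγ1, h1⟩ := hT1R hT1 hSZ hE1 (Fin r ⊕ Fin j) τ t η κ K w ht htτ hτ hη hη1 hw hκ hlev
  have h3 := hNom (Fin r ⊕ Fin j) (Sum.elim (fun i => (B i).lo) fun _ => κ)
    (Sum.elim (fun i => (B i).hi) fun _ => z) (min γ1 γ2) (lt_min hγ1 hγ2)
  filter_upwards [h1, h2, h3, log_One (η / 20) (by positivity) A, eventually_gt_atTop 1]
    with x h1 h2 h3 h4 hx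
  intro N hN
  have hx0 : 0 < x := by linarith
  have hlog : 0 < Real.log x := Real.log_pos hx
  set c : Fin r ⊕ Fin j → AF := Sum.elim (fun i => bf x (B i)) fun _ => PP x κ z with hc
  have hc01 : ∀ i n, 0 ≤ c i n ∧ c i n ≤ 1 := by
    rintro (i | i) n
    · exact bf_nn_One x (B i) n
    · exact PP_nn_One x κ z n
  have hnn : ∀ i n, 0 ≤ dy (N i) (c i) n := fun i n => (dy_nn_One (N i) (hc01 i) n).1
  have hsl : ∀ i, Slot (N i) (dy (N i) (c i)) := fun i => slot_One (hN i) (hc01 i)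
  have hE : 0 ≤ 2 ^ 28 / 4 ^ w / κ * (∏ i, ms ⌊2 * x⌋₊ (dy (N i) (c i))) * (x / Real.log x) :=
    mul_nonneg (mul_nonneg (by positivity) (prod_nonneg fun i _ => ms_nn_One _ (hnn i)))
      (by positivity)
  have hA : 0 ≤ x / Real.log x ^ A := by positivity
  by_cases h0 : Dl t x ((∏ i, dy (N i) (c i)) * bf x (fr κ)) = 0
  · rw [h0, abs_zero]
    exact add_nonneg hA hE
  have h5 : ∃ Δ, SS x Δ ((∏ i, dy (N i) (c i)) * bf x (fr κ)) ≠ 0 := by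
    by_contra k
    push Not at k
    exact h0 (by rw [Dl, SB, k, k, sub_zero])
  obtain ⟨Δ, h5⟩ := h5
  obtain ⟨m, l, hm, hl, -, hml⟩ := hVan _ x Δ _ _ hx0 h5
  have hl1 : (1 : ℝ) ≤ l := by
    exact_mod_cast Nat.one_le_iff_ne_zero.2 (bf_ne_One hl).1
  have hpm : (∏ i, (m i : ℝ)) ≤ 2 * x :=
    (le_mul_of_one_le_right (prod_nonneg fun i _ => Nat.cast_nonneg _) hl1).trans hml
  obtain ⟨a, b, ha, hb, hab, hnear⟩ := h3 N m (fun i => by
    obtain ⟨⟨k1, k2⟩, k3⟩ := dy_ne_One (hm i)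
    refine ⟨hN i, k1, k2, ?_⟩
    rcases i with i | i
    · have k4 := bf_ne_One (x := x) (B := B i) k3
      exact ⟨k4.2.1.le, k4.2.2.1⟩
    · exact PP_ne_One (κ := κ) (z := z) hx0.le k3) hpm
  have h6 := hAlt j (a ∘ Sum.inl) (a ∘ Sum.inr) b (fun i => ha (Sum.inl i))
    (fun i => (ha (Sum.inr i)).2) hb (by rw [← hab, Fintype.sum_sum_type]; rfl)
  rw [Sum.elim_comp_inl_inr] at h6
  rcases h6 with h6 | h6
  · refine (h1 a b N _ (fun i => (ha i).1) hab h6 hsl (near_One hx.le (min_le_left _ _) hnear)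
      hnn).trans ?_
    exact add_le_add h4 le_rfl
  · refine (h2 _ a b N _ (bf x (fr κ)) (fun i => (ha i).1) hb hab h6 hsl
      (near_One hx.le (min_le_right _ _) hnear) ?_ fun n => ?_).trans (le_add_of_nonneg_right hE)
    · rintro (i | i) hi
      · exact hPr.1 x (B i) _ hx hi
      · exact hPr.2 _ _ _
    · rw [abs_of_nonneg (bf_nn_One x _ n).1]
      exact (bf_nn_One x _ n).2

end Pool.Agent.MP_c853c5_nt.D
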