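import Pool.Agent.MP_c853c5_nt.D.Defs

/-!
Summation over the dyadic boxes.
-/

set_option autoImplicit false

open Finset Filter

namespace Pool.Agent.MP_c853c5_nt.D

open Pool.Agent.MP_c853c5_nt.S

theorem ms_nonneg_Row (X : ℕ) {f : AF} (h : ∀ n, 0 ≤ f n) : 0 ≤ ms X f :=
  sum_nonneg fun n _ => div_nonneg (h n) (Nat.cast_nonneg n)

theorem bf_nonneg_Row (x : ℝ) (B : Blk) (n : ℕ) : 0 ≤ bf x B n := by
  simp only [bf, ArithmeticFunction.coe_mk]
  split_ifs <;> norm_num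

theorem pp_nonneg_Row (x κ z : ℝ) (n : ℕ) : 0 ≤ PP x κ z n := by
  simp only [PP, prI, ArithmeticFunction.coe_mk]
  split_ifs <;> norm_num

theorem len_Row {x : ℝ} (hx : 1 ≤ x) (hl : 2 ≤ Real.log x) :
    ((Nat.log 2 ⌊2 * x⌋₊ + 1 : ℕ) : ℝ) ≤ 3 * Real.log x := by
  have h1 : ⌊2 * x⌋₊ ≠ 0 := (Nat.floor_pos.2 (by linarith)).ne'
  have h2 : ((2 ^ Nat.log 2 ⌊2 * x⌋₊ : ℕ) : ℝ) ≤ 2 * x :=
    (Nat.cast_le.2 (Nat.pow_log_le_self 2 h1)).trans (Nat.floor_le (by linarith))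
  have h3 := Real.log_le_log (by positivity) h2
  rw [Real.log_mul (by norm_num) (by linarith), Nat.cast_pow, Real.log_pow, Nat.cast_ofNat] at h3
  have h4 := Real.log_two_gt_d9
  have h5 : (0 : ℝ) ≤ Nat.log 2 ⌊2 * x⌋₊ := Nat.cast_nonneg _
  push_cast
  nlinarith

theorem dRow : RowStmt := by
  intro hD t κ z E M m r j B hE hO hM hm ε hε
  filter_upwards [hO (r + j + 2), hM, hm, eventually_ge_atTop (1 : ℝ),
    Real.tendsto_log_atTop.eventually_ge_atTop 2,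
    Real.tendsto_log_atTop.eventually_ge_atTop (3 ^ (r + j) / ε)] with x h1 h2 h3 hx hl hl2
  have hL := len_Row hx hl
  have hX : ⌊2 * x⌋₊ < 2 ^ (Nat.log 2 ⌊2 * x⌋₊ + 1) := Nat.lt_pow_succ_log_self (by norm_num) _
  generalize Nat.log 2 ⌊2 * x⌋₊ + 1 = L at hL hX
  have hX' : 2 * x < 2 ^ L := by
    have := (Nat.floor_lt (by linarith)).1 hX
    exact_mod_cast this
  set c : Fin r ⊕ Fin j → AF := Sum.elim (fun i => bf x (B i)) (fun _ => PP x κ z) with hc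
  have e1 : (∏ i, bf x (B i)) * PP x κ z ^ j = ∏ i, c i := by
    simp [hc, Fintype.prod_sum_type]
  have e2 : Dl t x ((∏ i, c i) * bf x (fr κ)) = ∑ e : Fin r ⊕ Fin j → Fin L,
      Dl t x ((∏ i, dy (2 ^ (e i : ℕ)) (c i)) * bf x (fr κ)) := by
    simp only [Dl, SB, sum_sub_distrib]
    rw [hD.1 _ x _ L c _ (by linarith) hX', hD.1 _ x _ L c _ (by linarith) hX']
  have e3 : ∑ e : Fin r ⊕ Fin j → Fin L, ∏ i, ms ⌊2 * x⌋₊ (dy (2 ^ (e i : ℕ)) (c i)) =
      ∏ i, ms ⌊2 * x⌋₊ (c i) := by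
    rw [← Fintype.piFinset_univ, ← prod_univ_sum (fun _ => univ)
      fun i (k : Fin L) => ms ⌊2 * x⌋₊ (dy (2 ^ (k : ℕ)) (c i))]
    exact prod_congr rfl fun i _ => hD.2 _ L _ hX
  have e4 : ∏ i, ms ⌊2 * x⌋₊ (c i) ≤ M ^ r * m ^ j := by
    have a1 := fun i => ms_nonneg_Row ⌊2 * x⌋₊ (bf_nonneg_Row x (B i))
    have a2 := ms_nonneg_Row ⌊2 * x⌋₊ (pp_nonneg_Row x κ z)
    have a3 : ∏ i, ms ⌊2 * x⌋₊ (bf x (B i)) ≤ M ^ r :=
      (prod_le_prod (fun i _ => a1 i) fun i _ => h2 i).trans (by simp)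
    have a4 := prod_nonneg (s := univ) fun i _ => a1 i
    simp only [hc, Fintype.prod_sum_type, Sum.elim_inl, Sum.elim_inr, prod_const, card_univ,
      Fintype.card_fin]
    exact mul_le_mul a3 (pow_le_pow_left₀ a2 h3 j) (pow_nonneg a2 j) (a4.trans a3)
  have l0 : 0 < Real.log x := by linarith
  have q0 : 0 ≤ x / Real.log x := by positivity
  have e5 : (L : ℝ) ^ (r + j) * (x / Real.log x ^ (r + j + 2)) ≤ ε * (x / Real.log x) := by
    have a1 : (L : ℝ) ^ (r + j) ≤ ε * Real.log x * Real.log x ^ (r + j) := by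
      refine (pow_le_pow_left₀ (Nat.cast_nonneg L) hL _).trans ?_
      rw [mul_pow]
      refine mul_le_mul_of_nonneg_right ?_ (by positivity)
      rw [div_le_iff₀ hε] at hl2
      linarith
    refine (mul_le_mul_of_nonneg_right a1 (by positivity)).trans (le_of_eq ?_)
    field_simp
    ring
  rw [e1, e2]
  refine (abs_sum_le_sum_abs _ _).trans ((sum_le_sum fun e _ =>
    h1 (fun i => 2 ^ (e i : ℕ)) fun i => Nat.one_le_two_pow).trans ?_)
  rw [sum_add_distrib, ← sum_mul, ← mul_sum, e3, sum_const, card_univ, Fintype.card_fun,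
    Fintype.card_fin, Fintype.card_sum, Fintype.card_fin, Fintype.card_fin, nsmul_eq_mul,
    Nat.cast_pow, add_mul, mul_assoc E (M ^ r)]
  exact add_le_add e5 (mul_le_mul_of_nonneg_right (mul_le_mul_of_nonneg_left e4 hE) q0)

end Pool.Agent.MP_c853c5_nt.D
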