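import Pool.Agent.MP_c853c5_nt.D.Defs
import Pool.Agent.MP_c853c5_nt.L.Conv
import Pool.Agent.MP_c853c5_nt.Z.Sand

/-!
The main term of a smoothed sum with a free variable.
-/

set_option autoImplicit false

open Finset Filter

namespace Pool.Agent.MP_c853c5_nt.D

open Pool.Agent.MP_c853c5_nt.S

lemma mono_SZ {f : ℝ → ℝ} {M : ℝ} (hf : Monotone f) (h0 : ∀ u, 0 ≤ f u) (h1 : ∀ u, f u ≤ M)
    (N : ℕ) : |∑ i ∈ range N, f ((i + 1 : ℕ) : ℝ) - ∫ u in (0 : ℝ)..N, f u| ≤ M := by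
  have a1 := (hf.monotoneOn (Set.Icc (0 : ℝ) (0 + N))).sum_le_integral
  have a2 := (hf.monotoneOn (Set.Icc (0 : ℝ) (0 + N))).integral_le_sum
  simp only [zero_add] at a1 a2
  have a3 := sum_range_succ' (fun i : ℕ => f i) N
  rw [sum_range_succ] at a3
  have := h0 ((0 : ℕ) : ℝ)
  have := h0 0
  have := h1 0
  have := h1 N
  rw [abs_le]
  constructor <;> linarith

lemma anti_SZ {Δ z w : ℝ} (h : 0 < Δ) (hz : |z| ≤ |w|) : Z.gg Δ w ≤ Z.gg Δ z := by
  unfold Z.gg
  have := sq_le_sq.2 hz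
  have := Real.pi_pos
  gcongr

/-- the constant -/
noncomputable def cc_SZ (Δ : ℝ) : ℝ :=
  ∫ v in (-Real.log 2)..Real.log 2, Z.gg Δ (v - 0) * Real.exp v

lemma cc_le_SZ {Δ : ℝ} (h : 0 < Δ) : 0 ≤ cc_SZ Δ ∧ cc_SZ Δ ≤ 2 := by
  have l2 : -Real.log 2 ≤ Real.log 2 := by linarith [Real.log_pos one_lt_two]
  refine ⟨intervalIntegral.integral_nonneg l2 fun v _ =>
    mul_nonneg (L.gg_nonneg h.le _) (Real.exp_pos v).le, ?_⟩
  have c1 : Continuous fun v => Z.gg Δ (v - 0) := by simpa using Z.cont_Sand Δ 0 1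
  have a1 : cc_SZ Δ ≤ ∫ v in (-Real.log 2)..Real.log 2, 2 * Z.gg Δ (v - 0) := by
    refine intervalIntegral.integral_mono_on l2 ((c1.mul Real.continuous_exp).intervalIntegrable _ _)
      ((Z.cont_Sand Δ 0 2).intervalIntegrable _ _) fun v hv => ?_
    rw [mul_comm]
    refine mul_le_mul_of_nonneg_right ?_ (L.gg_nonneg h.le _)
    exact (Real.exp_le_exp.2 hv.2).trans_eq (Real.exp_log two_pos)
  rw [intervalIntegral.integral_const_mul] at a1
  linarith [Z.int_le_Sand h l2 0]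

lemma int_SZ (Δ : ℝ) {Y : ℝ} (hY : 0 < Y) :
    ∫ u in (Y / 2)..(2 * Y), Z.gg Δ (Real.log Y - Real.log u) = cc_SZ Δ * Y := by
  have c1 : Continuous (Z.gg Δ) := by simpa using Z.cont_Sand Δ 0 1
  have := intervalIntegral.integral_comp_mul_deriv' (a := -Real.log 2) (b := Real.log 2)
    (f := fun v => Y * Real.exp v) (f' := fun v => Y * Real.exp v)
    (g := fun u => Z.gg Δ (Real.log Y - Real.log u))
    (fun v _ => (Real.hasDerivAt_exp v).const_mul Y) (by fun_prop)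
    (c1.comp_continuousOn (continuousOn_const.sub (Real.continuousOn_log.mono (by
      rintro _ ⟨v, -, rfl⟩
      exact (mul_pos hY (Real.exp_pos v)).ne'))))
  rw [Real.exp_neg, Real.exp_log two_pos, ← div_eq_mul_inv, mul_comm Y 2] at this
  rw [← this, cc_SZ, ← intervalIntegral.integral_mul_const]
  refine intervalIntegral.integral_congr fun v _ => ?_
  simp only [Function.comp, Real.log_mul hY.ne' (Real.exp_pos v).ne', Real.log_exp, Z.gg]
  ring_nf

lemma one_SZ {Δ Y : ℝ} (h : 0 < Δ) (hY : 0 < Y) :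
    |L.SS Y Δ zt - cc_SZ Δ * Y| ≤ 2 / Δ := by
  set φ : ℝ → ℝ := fun u => Z.gg Δ (Real.log Y - Real.log u) with hφ
  have f0 : ∀ u, 0 ≤ φ u := fun u => L.gg_nonneg h.le _
  have fY : φ Y = Δ⁻¹ := by simp [hφ, Z.gg]
  have f1 : ∀ u, φ u ≤ Δ⁻¹ := fun u => (anti_SZ h (by simp)).trans_eq fY
  have d0 : 0 ≤ Δ⁻¹ := inv_nonneg.2 h.le
  set A : ℝ → ℝ := fun u => if Y / 2 < u then φ (min u Y) else 0 with hA
  set B : ℝ → ℝ := fun u => if u ≤ 2 * Y then Δ⁻¹ - φ (max u Y) else Δ⁻¹ with hB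
  have A0 : ∀ u, 0 ≤ A u := fun u => by
    simp only [hA]
    split_ifs
    exacts [f0 _, le_rfl]
  have A1 : ∀ u, A u ≤ Δ⁻¹ := fun u => by
    simp only [hA]
    split_ifs
    exacts [f1 _, d0]
  have B0 : ∀ u, 0 ≤ B u := fun u => by
    simp only [hB]
    split_ifs
    exacts [sub_nonneg.2 (f1 _), d0]
  have B1 : ∀ u, B u ≤ Δ⁻¹ := fun u => by
    simp only [hB]
    split_ifs
    exacts [sub_le_self _ (f0 _), le_rfl]
  have mA : Monotone A := fun u v huv => by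
    by_cases hu : Y / 2 < u
    · simp only [hA, if_pos hu, if_pos (hu.trans_le huv)]
      have p1 : 0 < min u Y := lt_min (by linarith) hY
      have p2 := Real.log_le_log p1 (min_le_min_right Y huv)
      have p3 := Real.log_le_log (p1.trans_le (min_le_min_right Y huv)) (min_le_right v Y)
      refine anti_SZ h ?_
      rw [abs_of_nonneg (by linarith), abs_of_nonneg (by linarith)]
      linarith
    · refine le_of_eq_of_le ?_ (A0 v)
      simp only [hA, if_neg hu]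
  have mB : Monotone B := fun u v huv => by
    by_cases hv : v ≤ 2 * Y
    · simp only [hB, if_pos hv, if_pos (huv.trans hv)]
      have p2 := Real.log_le_log hY (le_max_right u Y)
      have p3 := Real.log_le_log (hY.trans_le (le_max_right u Y)) (max_le_max_right Y huv)
      refine sub_le_sub_left (anti_SZ h ?_) _
      rw [abs_of_nonpos (by linarith), abs_of_nonpos (by linarith)]
      linarith
    · refine (B1 u).trans_eq ?_
      simp only [hB, if_neg hv]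
  have e : ∀ u, A u - B u = (Set.Ioc (Y / 2) (2 * Y)).indicator φ u := fun u => by
    simp only [hA, hB, Set.indicator, Set.mem_Ioc]
    by_cases h1 : Y / 2 < u <;> by_cases h2 : u ≤ 2 * Y
    · rcases le_total u Y with h3 | h3 <;> simp [h1, h2, h3, fY]
    · simp [h1, h2, min_eq_right (show Y ≤ u by linarith), fY]
    · simp [h1, h2, max_eq_right (show u ≤ Y by linarith), fY]
    · exfalso
      linarith
  have N1 : 2 * Y ≤ ((⌊2 * Y⌋₊ + 1 : ℕ) : ℝ) := by
    push_cast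
    exact (Nat.lt_floor_add_one _).le
  have s1 : L.SS Y Δ zt = ∑ i ∈ range (⌊2 * Y⌋₊ + 1), (A (i + 1 : ℕ) - B (i + 1 : ℕ)) := by
    simp only [e, Set.indicator, Set.mem_Ioc, ← L.mem_win hY.le]
    rw [range_eq_Ico, sum_Ico_add' (fun n : ℕ => if n ∈ Ioc ⌊Y / 2⌋₊ ⌊2 * Y⌋₊ then φ n else 0),
      sum_ite_mem, inter_eq_right.2 fun n hn => by rw [mem_Ioc] at hn; rw [mem_Ico]; omega]
    refine sum_congr rfl fun n hn => ?_
    have : n ≠ 0 := by
      rw [mem_Ioc] at hn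
      omega
    simp [zt, this, hφ]
  have s2 : cc_SZ Δ * Y = (∫ u in (0 : ℝ)..(⌊2 * Y⌋₊ + 1 : ℕ), A u) -
      ∫ u in (0 : ℝ)..(⌊2 * Y⌋₊ + 1 : ℕ), B u := by
    rw [← intervalIntegral.integral_sub mA.intervalIntegrable mB.intervalIntegrable,
      ← int_SZ Δ hY, intervalIntegral.integral_of_le (by linarith),
      intervalIntegral.integral_of_le (Nat.cast_nonneg _)]
    simp only [e]
    rw [MeasureTheory.setIntegral_indicator measurableSet_Ioc,
      Set.inter_eq_right.2 (Set.Ioc_subset_Ioc (by linarith) N1)]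
  have b1 := abs_le.1 (mono_SZ mA A0 A1 (⌊2 * Y⌋₊ + 1))
  have b2 := abs_le.1 (mono_SZ mB B0 B1 (⌊2 * Y⌋₊ + 1))
  rw [s1, s2, sum_sub_distrib, div_eq_mul_inv, abs_le]
  constructor <;> linarith [b1.1, b1.2, b2.1, b2.2]

theorem dSZ : SZStmt := by
  refine ⟨2, two_pos, fun x Δ hx h _ => ⟨cc_SZ Δ, (cc_le_SZ h).1, (cc_le_SZ h).2, fun g => ?_⟩⟩
  have x0 : 0 < x := by linarith
  have e : SS x Δ (g * zt) = ∑ m ∈ Icc 1 ⌊2 * x⌋₊, g m * L.SS (x / m) Δ zt := L.conv x Δ g zt x0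
  rw [e, ms, mul_sum, ← sum_sub_distrib, mul_sum]
  refine (abs_sum_le_sum_abs _ _).trans (sum_le_sum fun m hm => ?_)
  have m0 : (0 : ℝ) < m := by exact_mod_cast (mem_Icc.1 hm).1
  rw [show g m * L.SS (x / m) Δ zt - cc_SZ Δ * x * (g m / m) =
    (L.SS (x / m) Δ zt - cc_SZ Δ * (x / m)) * g m by ring, abs_mul]
  exact mul_le_mul_of_nonneg_right (one_SZ h (div_pos x0 m0)) (abs_nonneg _)

end Pool.Agent.MP_c853c5_nt.D
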