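import Pool.Agent.MP_c853c5_nt.D.Defs
import Pool.Agent.MP_c853c5_nt.S.Basic

/-!
Summation over the number of small primes.
-/

set_option autoImplicit false

open Finset Filter

namespace Pool.Agent.MP_c853c5_nt.D

open Pool.Agent.MP_c853c5_nt.S

lemma small_Sum (δ ε : ℝ) (hδ : 0 < δ) (hε : 0 < ε) :
    ∀ᶠ x : ℝ in atTop, x ^ (1 - δ) ≤ ε * (x / Real.log x) := by
  filter_upwards [(isLittleO_log_rpow_atTop hδ).bound hε, eventually_gt_atTop 1] with x h1 hx
  have x0 : 0 < x := by linarith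
  have l0 := Real.log_pos hx
  have p0 := Real.rpow_pos_of_pos x0 δ
  rw [Real.norm_eq_abs, Real.norm_eq_abs, abs_of_pos l0, abs_of_pos p0] at h1
  rw [Real.rpow_sub x0, Real.rpow_one, ← mul_div_assoc, div_le_div_iff₀ p0 l0]
  nlinarith

lemma width_Sum {x s δ δ' : ℝ} (hx : 1 < x) (hδ : δ ≤ δ') {f e : AF}
    (h : ∀ n : ℕ, (n : ℝ) ≤ 2 * x → |f n| ≤ x ^ (δ / 2) * e n)
    (he : SS x (x ^ s) e ≤ x ^ (1 - δ')) : |SS x (x ^ s) f| ≤ x ^ (1 - δ / 2) := by
  have x0 : 0 < x := by linarith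
  have h1 := abs_SS_le (x := x) (f := f) (g := x ^ (δ / 2) • e) (Real.rpow_nonneg x0.le s)
    fun n hn => h n hn.2
  rw [SS_smul] at h1
  calc _ ≤ x ^ (δ / 2) * x ^ (1 - δ') :=
        h1.trans (mul_le_mul_of_nonneg_left he (Real.rpow_nonneg x0.le _))
    _ = x ^ (δ / 2 + (1 - δ')) := (Real.rpow_add x0 _ _).symm
    _ ≤ _ := Real.rpow_le_rpow_of_exponent_le hx.le (by linarith)

theorem dSum : SumStmt := by
  intro hI hB hS t κ z E m r B t0 t1 κ0 κz E0 m0 h ε hε
  obtain ⟨J, hJ⟩ := hI r B κ z κ0 κz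
  obtain ⟨δ₁, d1, b1⟩ := hB hS κ t κ0 t0 t1
  obtain ⟨δ₂, d2, b2⟩ := hB hS κ (1 / 1000) κ0 (by norm_num) (by norm_num)
  have d0 : 0 < min δ₁ δ₂ := lt_min d1 d2
  have e0 : 0 < ε / (2 * (J + 1)) := by positivity
  filter_upwards [hJ _ (half_pos d0), b1, b2, eventually_gt_atTop 1,
    small_Sum _ (ε / 4) (half_pos d0) (by positivity),
    (eventually_all_finset (range J)).2 fun j _ => h j _ e0] with x h1 h2 h3 hx h4 h5
  set F : AF := (∏ i, bf x (B i)) * bf x (fr z) with hF
  set Gj : ℕ → AF := fun j => (∏ i, bf x (B i)) * PP x κ z ^ j * bf x (fr κ) with hG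
  set H : AF := ∑ j ∈ range J, ((-1) ^ j / (j.factorial : ℝ)) • Gj j with hH
  have u0 : 0 < x / Real.log x := div_pos (by linarith) (Real.log_pos hx)
  have k0 : ∀ n : ℕ, (n : ℝ) ≤ 2 * x → |(F - H) n| ≤ x ^ (min δ₁ δ₂ / 2) * bad x κ n := by
    intro n hn
    rw [AF_sub, hH, AF_sum]
    exact h1 n hn
  have k1 := abs_le.1 (width_Sum hx (min_le_left _ _) k0 h2)
  have k2 := abs_le.1 (width_Sum hx (min_le_right _ _) k0 h3)
  have k3 : |Dl t x (F - H)| ≤ ε / 2 * (x / Real.log x) := by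
    unfold Dl SB
    rw [abs_le]
    constructor <;> linarith [k1.1, k1.2, k2.1, k2.2]
  have k4 : |Dl t x H| ≤ (ε / 2 + E * Real.exp m) * (x / Real.log x) := by
    rw [hH, Dl_sum]
    refine (abs_sum_le_sum_abs _ _).trans ?_
    calc ∑ j ∈ range J, |Dl t x (((-1) ^ j / (j.factorial : ℝ)) • Gj j)|
        ≤ ∑ j ∈ range J, (ε / (2 * (J + 1)) + E * (m ^ j / j.factorial)) * (x / Real.log x) := by
          refine sum_le_sum fun j hj => ?_
          have f1 : (1 : ℝ) ≤ j.factorial := by exact_mod_cast j.factorial_pos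
          rw [Dl_smul, abs_mul, abs_div, abs_pow, abs_neg, abs_one, one_pow,
            abs_of_pos (by linarith : (0 : ℝ) < j.factorial)]
          refine (mul_le_mul_of_nonneg_left (h5 j hj) (by positivity)).trans ?_
          rw [← mul_assoc]
          apply mul_le_mul_of_nonneg_right _ u0.le
          have : 1 / (j.factorial : ℝ) * (ε / (2 * (J + 1))) ≤ ε / (2 * (J + 1)) :=
            mul_le_of_le_one_left e0.le ((div_le_one (by linarith)).2 f1)
          calc _ = 1 / (j.factorial : ℝ) * (ε / (2 * (J + 1))) + E * (m ^ j / j.factorial) := by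
                ring
            _ ≤ _ := by linarith
      _ = (J * (ε / (2 * (J + 1))) + E * ∑ j ∈ range J, m ^ j / j.factorial) *
            (x / Real.log x) := by
          rw [← sum_mul, sum_add_distrib, sum_const, card_range, nsmul_eq_mul, ← mul_sum]
      _ ≤ _ := by
          apply mul_le_mul_of_nonneg_right _ u0.le
          have a1 : J * (ε / (2 * (J + 1))) ≤ ε / 2 := by
            rw [← mul_div_assoc, div_le_div_iff₀ (by positivity) (by norm_num)]
            nlinarith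
          have a2 := mul_le_mul_of_nonneg_left (Real.sum_le_exp_of_nonneg m0 J) E0
          linarith
  rw [Dl_sub] at k3
  have k5 := abs_add_le (Dl t x F - Dl t x H) (Dl t x H)
  rw [sub_add_cancel] at k5
  linarith

end Pool.Agent.MP_c853c5_nt.D
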