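import Pool.Agent.MP_c853c5_nt.D.Defs
import Pool.Agent.MP_c853c5_nt.S.Basic

set_option autoImplicit false

open Finset Filter

namespace Pool.Agent.MP_c853c5_nt.D

open Pool.Agent.MP_c853c5_nt.S Pool.Agent.MP_2a1f0e_nt

/-- the scales of the smooth partition -/
noncomputable def yk_T1 (k : ℕ) : ℝ := 3 / 4 * (4 / 3) ^ k

lemma yk_pos_T1 (k : ℕ) : 0 < yk_T1 k := by
  unfold yk_T1
  positivity

lemma tel_T1 {l : ℝ} (hl : 1 ≤ l) {n : ℕ} (h : l ≤ yk_T1 n) :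
    ∑ k ∈ range n, DH.om (l / yk_T1 k) = 1 := by
  have e : ∀ k, DH.om (l / yk_T1 k) = DH.psi (l / yk_T1 (k + 1)) - DH.psi (l / yk_T1 k) := by
    intro k
    unfold DH.om
    congr 2
    unfold yk_T1
    rw [pow_succ]
    field_simp
  rw [sum_congr rfl fun k _ => e k, sum_range_sub fun k => DH.psi (l / yk_T1 k),
    DH.psi_eq_one ((div_le_one (yk_pos_T1 n)).2 h), DH.psi_eq_zero, sub_zero]
  rw [le_div_iff₀ (yk_pos_T1 0)]
  unfold yk_T1
  linarith [pow_zero (4 / 3 : ℝ)]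

lemma zt_T1 {l n : ℕ} (h : (l : ℝ) ≤ yk_T1 n) : zt l = (∑ k ∈ range n, omz (yk_T1 k)) l := by
  rcases Nat.eq_zero_or_pos l with rfl | hl
  · simp
  · rw [AF_sum]
    refine Eq.trans ?_ (tel_T1 (by exact_mod_cast hl) h).symm
    simp [zt, ArithmeticFunction.natCoe_apply, ArithmeticFunction.zeta_apply, hl.ne']

lemma lam_T1 {lam : AF} {D : ℕ} (h : ∀ d, lam d ≠ 0 → d ≤ D) :
    lam = ∑ d ∈ Icc 1 D, lam d • sgl d := by
  ext n
  rw [AF_sum]
  by_cases hn : lam n = 0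
  · rw [hn]
    refine (sum_eq_zero fun d _ => ?_).symm
    rw [AF_smul]
    by_cases e : n = d
    · rw [← e, hn, zero_mul]
    · simp [sgl, e]
  · have h0 : n ≠ 0 := fun e => hn (by simp [e])
    rw [sum_eq_single_of_mem n (mem_Icc.2 ⟨Nat.pos_of_ne_zero h0, h n hn⟩)]
    · simp [sgl, h0]
    · intro d _ e
      simp [sgl, e.symm]

lemma exp_T1 (t : ℝ) {x : ℝ} (G lam : AF) {D n : ℕ} (h : ∀ d, lam d ≠ 0 → d ≤ D)
    (hn : 2 * x ≤ yk_T1 n) : Dl t x (G * (lam * zt)) =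
      ∑ d ∈ Icc 1 D, ∑ k ∈ range n, lam d * Dl t x (sgl d * G * omz (yk_T1 k)) := by
  have h1 : Dl t x (G * (lam * zt)) = Dl t x (G * lam * ∑ k ∈ range n, omz (yk_T1 k)) := by
    rw [← mul_assoc]
    refine Dl_congr t fun m hm => B.mul_apply_congr _ fun d hd => zt_T1 ?_
    have h0 : 0 < m := by
      rcases Nat.eq_zero_or_pos m with rfl | h0
      · have h2 := hm.1
        have h3 := hm.2
        simp only [Nat.cast_zero] at h2 h3
        linarith
      · exact h0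
    have h4 : (d : ℝ) ≤ m := by exact_mod_cast Nat.le_of_dvd h0 hd
    linarith [hm.2]
  have h2 : G * lam * ∑ k ∈ range n, omz (yk_T1 k) =
      ∑ d ∈ Icc 1 D, ∑ k ∈ range n, lam d • (sgl d * G * omz (yk_T1 k)) := by
    conv_lhs => rw [lam_T1 h]
    rw [mul_sum (Icc 1 D), sum_mul]
    refine sum_congr rfl fun d _ => ?_
    rw [mul_sum]
    refine sum_congr rfl fun k _ => ?_
    rw [mul_smul_comm, smul_mul_assoc, mul_comm G]
  rw [h1, h2, Dl_sum]
  refine sum_congr rfl fun d _ => ?_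
  rw [Dl_sum]
  exact sum_congr rfl fun k _ => Dl_smul _ _ _ _

lemma big_T1 {x : ℝ} (hx : 3 ≤ x) : 2 * x ≤ yk_T1 ⌈8 * Real.log x⌉₊ := by
  have h1 : Real.exp (1 / 4) ≤ 4 / 3 := by
    have h2 := Real.add_one_le_exp (-(1 / 4))
    rw [Real.exp_neg, le_inv_comm₀ (by norm_num) (Real.exp_pos _)] at h2
    exact h2.trans (by norm_num)
  have h2 : Real.exp (1 / 4) ^ ⌈8 * Real.log x⌉₊ ≤ (4 / 3) ^ ⌈8 * Real.log x⌉₊ :=
    pow_le_pow_left₀ (Real.exp_pos _).le h1 _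
  have h3 : x * x ≤ Real.exp (1 / 4) ^ ⌈8 * Real.log x⌉₊ := by
    rw [← Real.exp_nat_mul]
    calc x * x = Real.exp (Real.log x + Real.log x) := by
          rw [Real.exp_add, Real.exp_log (by linarith)]
      _ ≤ _ := Real.exp_le_exp.2 (by linarith [Nat.le_ceil (8 * Real.log x)])
  unfold yk_T1
  nlinarith

lemma van_T1 (hV : VanStmt) {ι : Type} [Fintype ι] {t x y : ℝ} {g : ι → AF} {d : ℕ} (hx : 0 < x)
    (hy : 0 < y) (h : Dl t x (sgl d * (∏ i, g i) * omz y) ≠ 0) :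
    ∃ (m : ι → ℕ) (l : ℝ), (∀ i, g i (m i) ≠ 0) ∧ y ≤ l ∧ l ≤ 2 * y ∧
      x / 2 < (∏ i, (m i : ℝ)) * (d * l) ∧ (∏ i, (m i : ℝ)) * (d * l) ≤ 2 * x := by
  have e : sgl d * (∏ i, g i) * omz y = (∏ i, g i) * (sgl d * omz y) := by ring
  obtain ⟨Δ, hΔ⟩ : ∃ Δ, SS x Δ ((∏ i, g i) * (sgl d * omz y)) ≠ 0 := by
    by_contra k
    push Not at k
    exact h (by rw [e, Dl, SB, k, k, sub_zero])
  obtain ⟨m, l, h1, h2, h3, h4⟩ := hV ι x Δ g _ hx hΔ
  obtain ⟨u, w, rfl, h5, h6⟩ := exists_of_mul_ne h2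
  have h7 : u = d := by
    by_contra k
    exact h5 (by simp [sgl, k])
  have h8 : ¬((w : ℝ) / y ≤ 1 ∨ 5 / 3 ≤ (w : ℝ) / y) := fun k => h6 (DH.om_eq_zero k)
  rw [not_or, not_le, not_le, one_lt_div hy, div_lt_iff₀ hy] at h8
  rw [h7, Nat.cast_mul] at h3 h4
  exact ⟨m, w, h1, h8.1.le, by linarith [h8.2], h3, h4⟩

lemma prod_T1 {ι : Type} [Fintype ι] {x : ℝ} (hx : 0 < x) (a : ι → ℝ) (c : ℝ) :
    ∏ i, x ^ (a i + c) = x ^ (∑ i, a i + Fintype.card ι * c) := by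
  rw [← Real.rpow_sum_of_pos hx, sum_add_distrib, sum_const, card_univ, nsmul_eq_mul]

theorem dT1 (hV : VanStmt) : T1Stmt := by
  intro hE ι _ τ t η K ht htτ hτ hη hη'
  obtain ⟨γ₀, h0, hE⟩ := hE ι τ t η K ht htτ hτ hη hη'
  set k := Fintype.card ι with hk
  have hm : 0 < min γ₀ ((τ - t) / 8) := lt_min h0 (by linarith)
  set γ := min γ₀ ((τ - t) / 8) / (2 * (k + 1)) with hγ
  have g0 : 0 < γ := by positivity
  have g1 : (k + 1 : ℝ) * γ = min γ₀ ((τ - t) / 8) / 2 := by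
    rw [hγ]
    field_simp
  have k0 : (0 : ℝ) ≤ k * γ := by positivity
  have g2 : (k : ℝ) * γ + γ ≤ γ₀ / 2 := by linarith [min_le_left γ₀ ((τ - t) / 8)]
  have g3 : (k : ℝ) * γ + γ ≤ (τ - t) / 16 := by linarith [min_le_right γ₀ ((τ - t) / 8)]
  refine ⟨γ, g0, ?_⟩
  filter_upwards [hE, eventually_ge_atTop 3,
    (tendsto_rpow_atTop (half_pos h0)).eventually_ge_atTop 2,
    (tendsto_rpow_atTop (show 0 < (τ - t) / 8 by linarith)).eventually_ge_atTop (4 * 2 ^ k),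
    (isLittleO_log_rpow_atTop (show 0 < η / 20 by linarith)).bound
      (show (0 : ℝ) < 1 / 9 by norm_num)] with x hE x3 e1 e2 e3
  intro a b N g lam ha hab h1 hS hN hl hd
  have x0 : 0 < x := by linarith
  have x1 : 1 ≤ x := by linarith
  have hb := h1.1
  have s0 : 0 ≤ ∑ i, a i := sum_nonneg fun i _ => ha i
  have hlog : 1 ≤ Real.log x := by
    rw [Real.le_log_iff_exp_le x0]
    linarith [Real.exp_one_lt_d9]
  have hterm : ∀ d ∈ Icc 1 ⌊x ^ lev τ t η⌋₊, ∀ y : ℝ, 0 < y →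
      |Dl t x (sgl d * (∏ i, g i) * omz y)| ≤ x ^ (1 - η / 5) := by
    intro d hd' y hy
    by_cases hz : Dl t x (sgl d * (∏ i, g i) * omz y) = 0
    · rw [hz, abs_zero]
      positivity
    obtain ⟨m, l, m1, l1, l2, w1, w2⟩ := van_T1 hV x0 hy hz
    obtain ⟨d1, d2⟩ := mem_Icc.1 hd'
    have d3 : (1 : ℝ) ≤ d := by exact_mod_cast d1
    have d4 : (d : ℝ) ≤ x ^ ((τ - t) / 4) :=
      ((Nat.le_floor_iff (by positivity)).1 d2).trans
        (Real.rpow_le_rpow_of_exponent_le x1 (min_le_right _ _))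
    have p1 : ∏ i, (N i : ℝ) ≤ ∏ i, (m i : ℝ) :=
      prod_le_prod (fun i _ => by positivity) fun i _ => by
        exact_mod_cast ((hS i).2.2 _ (m1 i)).1
    have p2 : x ^ (∑ i, a i + k * -γ) ≤ ∏ i, (N i : ℝ) := by
      rw [← prod_T1 x0]
      exact prod_le_prod (fun i _ => by positivity) fun i _ => by
        rw [← sub_eq_add_neg]
        exact (hN i).1
    have p3 : ∏ i, (m i : ℝ) ≤ 2 ^ k * x ^ (∑ i, a i + k * γ) := by
      rw [← prod_T1 x0, hk, ← card_univ, ← prod_const, ← prod_mul_distrib]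
      refine prod_le_prod (fun i _ => by positivity) fun i _ => ?_
      have : (m i : ℝ) ≤ 2 * N i := by exact_mod_cast ((hS i).2.2 _ (m1 i)).2.le
      linarith [(hN i).2]
    have n0 : (0 : ℝ) ≤ ∏ i, (N i : ℝ) := by positivity
    have q1 : (d : ℝ) * (∏ i, (N i : ℝ)) * y ≤ 2 * x := by
      calc (d : ℝ) * (∏ i, (N i : ℝ)) * y = (∏ i, (N i : ℝ)) * (d * y) := by ring
        _ ≤ (∏ i, (m i : ℝ)) * (d * l) := by gcongr
        _ ≤ _ := w2
    have q2 : y ≤ x ^ (b + γ₀) := by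
      refine le_of_mul_le_mul_left ?_ (Real.rpow_pos_of_pos x0 (∑ i, a i + k * -γ))
      calc x ^ (∑ i, a i + k * -γ) * y ≤ (d : ℝ) * (∏ i, (N i : ℝ)) * y := by
            gcongr
            exact p2.trans (le_mul_of_one_le_left n0 d3)
        _ ≤ x ^ (γ₀ / 2) * x ^ (1 : ℝ) := by
            rw [Real.rpow_one]
            exact q1.trans (by gcongr)
        _ ≤ _ := by
            rw [← Real.rpow_add x0, ← Real.rpow_add x0]
            exact Real.rpow_le_rpow_of_exponent_le x1 (by linarith)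
    have q3 : x ^ (b - (τ - t) / 2) ≤ y := by
      refine le_of_mul_le_mul_left ?_
        (Real.rpow_pos_of_pos x0 ((τ - t) / 8 + (∑ i, a i + k * γ) + (τ - t) / 4))
      calc _ ≤ x ^ (1 : ℝ) := by
            rw [← Real.rpow_add x0]
            exact Real.rpow_le_rpow_of_exponent_le x1 (by linarith)
        _ ≤ 2 * ((∏ i, (m i : ℝ)) * (d * l)) := by
            rw [Real.rpow_one]
            linarith
        _ ≤ 2 * ((2 ^ k * x ^ (∑ i, a i + k * γ)) * (x ^ ((τ - t) / 4) * (2 * y))) := by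
            have : 0 ≤ l := by linarith
            gcongr
        _ = (4 * 2 ^ k) * x ^ (∑ i, a i + k * γ) * x ^ ((τ - t) / 4) * y := by ring
        _ ≤ _ := by
            rw [Real.rpow_add x0 _ ((τ - t) / 4), Real.rpow_add x0 ((τ - t) / 8)]
            gcongr
    refine hE a b N g d y (fun i => ⟨ha i, ?_⟩) (by linarith) h1 hS (fun i => (hN i).2.trans
      (Real.rpow_le_rpow_of_exponent_le x1 (by linarith))) q3 q2
      ((Real.one_le_rpow x1 (by linarith)).trans q3) d1 q1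
    linarith [single_le_sum (fun i _ => ha i) (mem_univ i)]
  rw [exp_T1 t _ lam (fun d h => Nat.le_floor (hd d h)) (big_T1 x3)]
  have c1 : (⌊x ^ lev τ t η⌋₊ : ℝ) ≤ x ^ (η / 20) :=
    (Nat.floor_le (by positivity)).trans (Real.rpow_le_rpow_of_exponent_le x1 (min_le_left _ _))
  have c2 : (⌈8 * Real.log x⌉₊ : ℝ) ≤ x ^ (η / 20) := by
    rw [Real.norm_of_nonneg (by linarith), Real.norm_of_nonneg (by positivity)] at e3
    linarith [Nat.ceil_lt_add_one (show 0 ≤ 8 * Real.log x by linarith)]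
  calc _ ≤ ∑ d ∈ Icc 1 ⌊x ^ lev τ t η⌋₊, ∑ j ∈ range ⌈8 * Real.log x⌉₊, x ^ (1 - η / 5) := by
        refine (abs_sum_le_sum_abs _ _).trans (sum_le_sum fun d hd' =>
          (abs_sum_le_sum_abs _ _).trans (sum_le_sum fun j _ => ?_))
        rw [abs_mul]
        exact (mul_le_of_le_one_left (abs_nonneg _) (hl d)).trans (hterm d hd' _ (yk_pos_T1 j))
    _ = (⌊x ^ lev τ t η⌋₊ : ℝ) * (⌈8 * Real.log x⌉₊ * x ^ (1 - η / 5)) := by simp
    _ ≤ x ^ (η / 20) * (x ^ (η / 20) * x ^ (1 - η / 5)) := by gcongr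
    _ = _ := by
        rw [← Real.rpow_add x0, ← Real.rpow_add x0]
        congr 1
        ring

end Pool.Agent.MP_c853c5_nt.D
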