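import Pool.Agent.MP_c853c5_nt.D.Defs
import Pool.Agent.MP_c853c5_nt.S.Basic

/-!
Type I sums with a rough last factor.
-/

set_option autoImplicit false

open Finset Filter

namespace Pool.Agent.MP_c853c5_nt.D

open Pool.Agent.MP_c853c5_nt.S

lemma supp_T1R {f g : AF} {A B : ℝ} (hf : ∀ n, f n ≠ 0 → (n : ℝ) ≤ A)
    (hg : ∀ n, g n ≠ 0 → (n : ℝ) ≤ B) (hA : 0 ≤ A) (n : ℕ) (h : (f * g) n ≠ 0) :
    (n : ℝ) ≤ A * B := by
  obtain ⟨a, b, rfl, h1, h2⟩ := exists_of_mul_ne h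
  rw [Nat.cast_mul]
  exact mul_le_mul (hf a h1) (hg b h2) (Nat.cast_nonneg _) hA

lemma mul_T1R {w : ℕ → ℝ} (hw : ∀ a b, w (a * b) = w a * w b) {f g : AF} {A B : ℝ} {X : ℕ}
    (hf : ∀ n, f n ≠ 0 → (n : ℝ) ≤ A) (hg : ∀ n, g n ≠ 0 → (n : ℝ) ≤ B) (hA : 0 ≤ A)
    (h : A * B ≤ X) : ∑ m ∈ Icc 1 X, (f * g) m * w m =
      (∑ m ∈ Icc 1 X, f m * w m) * ∑ m ∈ Icc 1 X, g m * w m := by
  obtain ⟨f', hf'⟩ : ∃ f' : AF, ∀ n, f' n = f n * w n :=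
    ⟨⟨fun n => f n * w n, by simp⟩, fun _ => rfl⟩
  obtain ⟨g', hg'⟩ : ∃ g' : AF, ∀ n, g' n = g n * w n :=
    ⟨⟨fun n => g n * w n, by simp⟩, fun _ => rfl⟩
  have e : ∀ m, (f * g) m * w m = (f' * g') m := fun m => by
    rw [ArithmeticFunction.mul_apply, ArithmeticFunction.mul_apply, sum_mul]
    refine sum_congr rfl fun p hp => ?_
    rw [hf', hg', ← (Nat.mem_divisorsAntidiagonal.1 hp).1, hw]
    ring
  have i : Icc 1 X = Ioc 0 X := rfl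
  simp only [e, ← hf', ← hg']
  rw [i, ArithmeticFunction.sum_Ioc_mul_eq_sum_prod_filter, sum_mul_sum, ← sum_product']
  refine sum_filter_of_ne fun p _ hp => ?_
  have h1 := hf p.1 (left_ne_zero_of_mul (hf' _ ▸ left_ne_zero_of_mul hp))
  have h2 := hg p.2 (left_ne_zero_of_mul (hg' _ ▸ right_ne_zero_of_mul hp))
  have h3 := (mul_le_mul h1 h2 (Nat.cast_nonneg _) hA).trans h
  exact_mod_cast h3

lemma psupp_T1R {ι : Type} (s : Finset ι) {g : ι → AF} {A : ι → ℝ}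
    (hg : ∀ i n, g i n ≠ 0 → (n : ℝ) ≤ A i) (n : ℕ) (h : (∏ i ∈ s, g i) n ≠ 0) :
    (n : ℝ) ≤ ∏ i ∈ s, A i := by
  classical
  obtain ⟨m, rfl, h1⟩ := exists_of_prod_ne s g h
  rw [Nat.cast_prod]
  exact prod_le_prod (fun i _ => Nat.cast_nonneg _) fun i hi => hg i _ (h1 i hi)

lemma prod_T1R {w : ℕ → ℝ} (hw : ∀ a b, w (a * b) = w a * w b) (h1 : w 1 = 1) {ι : Type}
    (s : Finset ι) {g : ι → AF} {A : ι → ℝ} {X : ℕ} (hA : ∀ i, 1 ≤ A i)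
    (hg : ∀ i n, g i n ≠ 0 → (n : ℝ) ≤ A i) (h : ∏ i ∈ s, A i ≤ X) :
    ∑ m ∈ Icc 1 X, (∏ i ∈ s, g i) m * w m = ∏ i ∈ s, ∑ m ∈ Icc 1 X, g i m * w m := by
  classical
  induction s using Finset.induction_on with
  | empty =>
    rw [prod_empty] at h
    rw [prod_empty, prod_empty, sum_eq_single_of_mem 1 (mem_Icc.2 ⟨le_rfl, by exact_mod_cast h⟩)
      fun m _ hm => by rw [ArithmeticFunction.one_apply_ne hm, zero_mul]]
    simp [h1]
  | insert a s ha ih =>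
    rw [prod_insert ha] at h
    have h2 : 0 ≤ ∏ i ∈ s, A i := prod_nonneg fun i _ => zero_le_one.trans (hA i)
    rw [prod_insert ha, prod_insert ha, mul_T1R hw (hg a) (psupp_T1R s hg)
      (zero_le_one.trans (hA a)) h, ih ((le_mul_of_one_le_left h2 (hA a)).trans h)]

lemma l1_T1R {f : ℕ → ℝ} {A : ℝ} (X : ℕ) (hA : 0 ≤ A) (h1 : ∀ n, f n ≤ 1)
    (hf : ∀ n, f n ≠ 0 → (n : ℝ) ≤ A) : ∑ m ∈ Icc 1 X, f m * 1 ≤ A := by
  classical
  simp only [mul_one]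
  rw [← sum_filter_ne_zero]
  refine (sum_le_card_nsmul _ _ 1 fun m _ => h1 m).trans ?_
  have h2 : (filter (fun m => f m ≠ 0) (Icc 1 X)).card ≤ (Icc 1 ⌊A⌋₊).card :=
    card_le_card fun m hm =>
      mem_Icc.2 ⟨(mem_Icc.1 (mem_filter.1 hm).1).1, Nat.le_floor (hf m (mem_filter.1 hm).2)⟩
  rw [Nat.card_Icc, Nat.add_sub_cancel] at h2
  rw [nsmul_eq_mul, mul_one]
  exact le_trans (by exact_mod_cast h2) (Nat.floor_le hA)

/-- the long sum of the error term -/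
lemma long_T1R {ι : Type} [Fintype ι] {g : ι → AF} {A : ι → ℝ} {gap : AF} {B U : ℝ} {X : ℕ}
    (hA : ∀ i, 1 ≤ A i) (hB : 1 ≤ B) (g0 : ∀ i n, 0 ≤ g i n) (g1 : ∀ i n, |g i n| ≤ 1)
    (hg : ∀ i n, g i n ≠ 0 → (n : ℝ) ≤ A i) (h1 : ∀ n, |gap n| ≤ 1)
    (h2 : ∀ n, gap n ≠ 0 → (n : ℝ) ≤ B) (h : (∏ i, A i) * B ≤ X) (hU : ms X gap ≤ U) :
    ms X ((∏ i, g i) * gap) ≤ (∏ i, ms X (g i)) * U ∧
      ∑ m ∈ Icc 1 X, |((∏ i, g i) * gap) m| ≤ (∏ i, A i) * B := by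
  have a0 : 0 ≤ ∏ i, A i := prod_nonneg fun i _ => zero_le_one.trans (hA i)
  have a1 : ∏ i, A i ≤ X := (le_mul_of_one_le_right a0 hB).trans h
  constructor
  · have hw : ∀ a b : ℕ, (((a * b : ℕ) : ℝ))⁻¹ = (a : ℝ)⁻¹ * (b : ℝ)⁻¹ := fun a b => by
      rw [Nat.cast_mul, mul_inv]
    simp only [ms, div_eq_mul_inv] at hU ⊢
    rw [mul_T1R (w := fun m => (m : ℝ)⁻¹) hw (psupp_T1R univ hg) h2 a0 h,
      prod_T1R (w := fun m => (m : ℝ)⁻¹) hw (by simp) univ hA hg a1]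
    exact mul_le_mul_of_nonneg_left hU (prod_nonneg fun i _ => sum_nonneg fun m _ =>
      mul_nonneg (g0 i m) (by positivity))
  · obtain ⟨G, hG⟩ : ∃ G : AF, ∀ n, G n = |gap n| := ⟨⟨fun n => |gap n|, by simp⟩, fun _ => rfl⟩
    have h3 : ∀ n, G n ≠ 0 → (n : ℝ) ≤ B := fun n hn => h2 n (abs_ne_zero.1 (hG n ▸ hn))
    have n0 : Nn (∏ i, g i) := Nn.prod fun i _ => g0 i
    calc _ ≤ ∑ m ∈ Icc 1 X, ((∏ i, g i) * G) m * 1 := sum_le_sum fun m _ => by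
          rw [mul_one]
          exact abs_mul_le (fun n => (abs_of_nonneg (n0 n)).le) (fun n => (hG n).ge) m
      _ = (∏ i, ∑ m ∈ Icc 1 X, g i m * 1) * ∑ m ∈ Icc 1 X, G m * 1 := by
          rw [mul_T1R (w := fun _ => 1) (by simp) (psupp_T1R univ hg) h3 a0 h,
            prod_T1R (w := fun _ => 1) (by simp) rfl univ hA hg a1]
      _ ≤ _ := mul_le_mul (prod_le_prod (fun i _ => sum_nonneg fun m _ => by simpa using g0 i m)
          fun i _ => l1_T1R X (zero_le_one.trans (hA i)) (fun n => (abs_le.1 (g1 i n)).2) (hg i))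
          (l1_T1R X (zero_le_one.trans hB) (fun n => (hG n).trans_le (h1 n)) h3)
          (sum_nonneg fun m _ => by rw [hG]; positivity) a0

lemma bf_T1R {x κ : ℝ} (hx : 2 ≤ x) {d : ℕ} (h1 : d ≠ 0) (h2 : (d : ℝ) ≤ 2 * x) :
    bf x (fr κ) d = Z.rgh ⌊x ^ κ⌋₊ d := by
  have e : Rough x κ d ↔ ∀ p : ℕ, p.Prime → p ∣ d → ⌊x ^ κ⌋₊ < p :=
    forall₃_congr fun p _ _ => (Nat.floor_lt (by positivity)).symm
  have e2 : (fr κ).Mem x d ↔ Rough x κ d := by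
    rw [mem_fr (by linarith), Real.rpow_two]
    exact ⟨fun h => h.2.2, fun h => ⟨h1, by nlinarith, h⟩⟩
  unfold Z.rgh
  split_ifs with h
  · exact bf_of_mem (e2.2 (e.2 h))
  · exact bf_of_not fun k => h (e.1 (e2.1 k))

/-- the sieve weights as arithmetic functions -/
lemma sieve_T1R {x κ l : ℝ} {w : ℕ} (hx : 2 ≤ x) (hw : 13 ≤ w) (hκ : 0 < κ) (h2 : 2 ≤ x ^ κ)
    (hl : κ * (4 * w + 6) ≤ l) {X : ℕ} (hX : x ^ l ≤ X) : ∃ up gap : AF,
    (∀ d, |up d| ≤ 1) ∧ (∀ d, |gap d| ≤ 1) ∧ (∀ d, up d ≠ 0 → (d : ℝ) ≤ x ^ l) ∧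
    (∀ d, gap d ≠ 0 → (d : ℝ) ≤ x ^ l) ∧
    (∀ d : ℕ, d ≠ 0 → (d : ℝ) ≤ 2 * x → bf x (fr κ) d ≤ (up * zt) d ∧
      (up * zt) d ≤ bf x (fr κ) d + (gap * zt) d) ∧
    ms X gap ≤ 2 ^ 26 / 4 ^ w / κ / Real.log x := by
  have hz : 2 ≤ ⌊x ^ κ⌋₊ := Nat.le_floor (by exact_mod_cast h2)
  obtain ⟨u, v, a1, a2, a3, a4, -⟩ := Z.fl_all w _ hw hz
  have u0 : u 0 = 0 := by_contra fun h => not_squarefree_zero (a2 0 (Or.inl h)).1
  have v0 : v 0 = 0 := by_contra fun h => not_squarefree_zero (a2 0 (Or.inr h)).1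
  obtain ⟨u, rfl⟩ : ∃ U : AF, ⇑U = u := ⟨⟨u, u0⟩, rfl⟩
  obtain ⟨v, rfl⟩ : ∃ U : AF, ⇑U = v := ⟨⟨v, v0⟩, rfl⟩
  have hx0 : 0 < x := by linarith
  have b1 : ((⌊x ^ κ⌋₊ ^ (4 * w + 6) : ℕ) : ℝ) ≤ x ^ l := by
    rw [Nat.cast_pow]
    refine (pow_le_pow_left₀ (Nat.cast_nonneg _) (Nat.floor_le (by positivity)) _).trans ?_
    rw [← Real.rpow_mul_natCast hx0.le]
    refine Real.rpow_le_rpow_of_exponent_le (by linarith) ?_
    push_cast
    exact hl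
  have b2 : ∀ d, u d ≠ 0 ∨ v d ≠ 0 → (d : ℝ) ≤ x ^ l := fun d h =>
    le_trans (by exact_mod_cast (a2 d h).2.1) b1
  refine ⟨u, v, fun d => (a1 d).1, fun d => (a1 d).2, fun d h => b2 d (Or.inl h),
    fun d h => b2 d (Or.inr h), fun d h1 h3 => ?_, ?_⟩
  · rw [bf_T1R hx h1 h3, zt, ArithmeticFunction.coe_mul_zeta_apply,
      ArithmeticFunction.coe_mul_zeta_apply]
    exact a3 d (Nat.one_le_iff_ne_zero.2 h1)
  · have b3 : ⌊x ^ κ⌋₊ ^ (4 * w + 6) ≤ X := by exact_mod_cast b1.trans hX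
    have e : ms X v = ∑ d ∈ Icc 1 (⌊x ^ κ⌋₊ ^ (4 * w + 6)), v d / d := by
      refine (sum_subset (Icc_subset_Icc_right b3) fun d hd hn => ?_).symm
      have : v d = 0 := by_contra fun h =>
        hn (mem_Icc.2 ⟨(mem_Icc.1 hd).1, (a2 d (Or.inr h)).2.1⟩)
      rw [this, zero_div]
    rw [e]
    refine a4.trans ?_
    have c1 : (2 : ℝ) ≤ ⌊x ^ κ⌋₊ := by exact_mod_cast hz
    have c2 := Nat.lt_floor_add_one (x ^ κ)
    have c3 : κ * Real.log x ≤ 2 * Real.log ⌊x ^ κ⌋₊ := by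
      rw [← Real.log_rpow hx0, ← Nat.cast_ofNat, ← Real.log_pow]
      exact Real.log_le_log (by positivity) (by nlinarith)
    have c4 : 0 < Real.log x := Real.log_pos (by linarith)
    have c5 : 0 < κ * Real.log x / 2 := by positivity
    calc _ ≤ 2 ^ 25 / 4 ^ w / (κ * Real.log x / 2) :=
          div_le_div_of_nonneg_left (by positivity) c5 (by linarith)
      _ = _ := by
          field_simp

theorem dT1R : T1RStmt := by
  intro hT hS hE ι _ τ t η κ K w h1 h2 h3 h4 h5 hw hκ hl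
  obtain ⟨γ₁, hγ₁, hT⟩ := hT hE ι τ t η K h1 h2 h3 h4 h5
  obtain ⟨C, hC, hS⟩ := hS
  obtain ⟨γ, hγ, g1, g2⟩ : ∃ γ : ℝ, 0 < γ ∧ γ ≤ γ₁ ∧ Fintype.card ι * γ ≤ 1 / 100 := by
    refine ⟨min γ₁ (1 / (100 * (Fintype.card ι + 1))), lt_min hγ₁ (by positivity),
      min_le_left _ _, (mul_le_mul_of_nonneg_left (min_le_right _ _) (Nat.cast_nonneg _)).trans ?_⟩
    rw [mul_one_div, div_le_div_iff₀ (by positivity) (by norm_num)]
    linarith
  have l0 : 0 ≤ lev τ t η := le_trans (by positivity) hl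
  have l1 : lev τ t η ≤ η / 20 := min_le_left _ _
  refine ⟨γ, hγ, ?_⟩
  filter_upwards [hT, eventually_ge_atTop 2, (tendsto_rpow_atTop hγ).eventually_ge_atTop 2,
    (tendsto_rpow_atTop hκ).eventually_ge_atTop 2,
    (tendsto_rpow_atTop (show 0 < η / 20 by positivity)).eventually_ge_atTop (2 + 2 * C)]
    with x hT x2 xγ xκ xη
  intro a b N g ha hab hE hg hN g0
  have x1 : 1 ≤ x := by linarith
  have x0 : 0 < x := by linarith
  have hN' : Near x γ₁ a N := fun i =>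
    ⟨(Real.rpow_le_rpow_of_exponent_le x1 (by linarith)).trans (hN i).1,
      (hN i).2.trans (Real.rpow_le_rpow_of_exponent_le x1 (by linarith))⟩
  have s1 : ∀ i n, g i n ≠ 0 → (n : ℝ) ≤ x ^ (a i + γ + γ) := fun i n hn => by
    have k : (n : ℝ) ≤ N i * 2 := by exact_mod_cast (mul_comm 2 (N i) ▸ ((hg i).2.2 n hn).2).le
    rw [Real.rpow_add x0]
    exact k.trans (mul_le_mul (hN i).2 xγ (by norm_num) (by positivity))
  have s2 : (∏ i, x ^ (a i + γ + γ)) * x ^ lev τ t η ≤ x ^ (19 / 20 : ℝ) := by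
    rw [← Real.rpow_sum_of_pos x0, ← Real.rpow_add x0]
    refine Real.rpow_le_rpow_of_exponent_le x1 ?_
    rw [sum_add_distrib, sum_add_distrib, sum_const, card_univ, nsmul_eq_mul]
    linarith [hE.1]
  have s3 : ∀ e : ℝ, e ≤ 1 → x ^ e ≤ ⌊2 * x⌋₊ := fun e he => by
    have k := Real.rpow_le_rpow_of_exponent_le x1 he
    rw [Real.rpow_one] at k
    linarith [Nat.lt_floor_add_one (2 * x)]
  obtain ⟨up, gap, u1, v1, u2, v2, pt, hm⟩ := sieve_T1R x2 hw hκ xκ hl (s3 _ (by linarith))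
  obtain ⟨m1, m2⟩ := long_T1R (fun i => Real.one_le_rpow x1 (by linarith [ha i]))
    (Real.one_le_rpow x1 l0) g0 (fun i => (hg i).2.1) s1 v1 v2 (s2.trans (s3 _ (by norm_num))) hm
  have n0 : Nn (∏ i, g i) := Nn.prod fun i _ => g0 i
  have d0 := abs_Dl_le t x0.le (f := (∏ i, g i) * bf x (fr κ)) (g := (∏ i, g i) * (up * zt))
    (e := (∏ i, g i) * (gap * zt)) fun n hn => by
      have n1 : 0 < n := by
        have : (0 : ℝ) < n := by linarith [hn.1]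
        exact_mod_cast this
      have k : ∀ d, d ∣ n → d ≠ 0 ∧ (d : ℝ) ≤ 2 * x := fun d hd =>
        ⟨(Nat.pos_of_dvd_of_pos hd n1).ne', le_trans (by exact_mod_cast Nat.le_of_dvd n1 hd) hn.2⟩
      have k1 := B.mul_apply_mono (g := bf x (fr κ)) (g' := up * zt) n0
        fun d hd => (pt d (k d hd).1 (k d hd).2).1
      have k2 := B.mul_apply_mono (g := up * zt) (g' := bf x (fr κ) + gap * zt) n0
        fun d hd => (pt d (k d hd).1 (k d hd).2).2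
      rw [mul_add, ArithmeticFunction.add_apply] at k2
      rw [abs_of_nonpos (by linarith)]
      linarith
  have d1 := hT a b N g up ha hab hE hg hN' u1 u2
  have d2 := hT a b N g gap ha hab hE hg hN' v1 v2
  obtain ⟨c, c0, c2, hc⟩ := hS x (x ^ (-(1 / 1000) : ℝ)) x1 (by positivity)
    (Real.rpow_le_one_of_one_le_of_nonpos x1 (by norm_num))
  have d3 := (abs_le.1 (hc ((∏ i, g i) * gap))).2
  rw [mul_assoc (∏ i, g i)] at d3
  have P0 : 0 ≤ ∏ i, ms ⌊2 * x⌋₊ (g i) := prod_nonneg fun i _ => sum_nonneg fun m _ =>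
    div_nonneg (g0 i m) (Nat.cast_nonneg _)
  have L0 : 0 < Real.log x := Real.log_pos (by linarith)
  have d4 : c * x * ms ⌊2 * x⌋₊ ((∏ i, g i) * gap) ≤
      2 * x * ((∏ i, ms ⌊2 * x⌋₊ (g i)) * (2 ^ 26 / 4 ^ w / κ / Real.log x)) :=
    (mul_le_mul_of_nonneg_left m1 (by positivity)).trans (by gcongr)
  have d5 : C / x ^ (-(1 / 1000) : ℝ) * ∑ m ∈ Icc 1 ⌊2 * x⌋₊, |((∏ i, g i) * gap) m| ≤
      C * x ^ (1 - η / 10) := by
    refine (mul_le_mul_of_nonneg_left (m2.trans s2) (by positivity)).trans ?_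
    rw [Real.rpow_neg x0.le, div_inv_eq_mul, mul_assoc, ← Real.rpow_add x0]
    exact mul_le_mul_of_nonneg_left (Real.rpow_le_rpow_of_exponent_le x1 (by linarith)) hC.le
  have d6 : (2 + 2 * C) * x ^ (1 - η / 10) ≤ x ^ (1 - η / 20) := by
    rw [show 1 - η / 20 = η / 20 + (1 - η / 10) by ring, Real.rpow_add x0]
    exact mul_le_mul_of_nonneg_right xη (by positivity)
  have d7 : 2 * (2 * x * ((∏ i, ms ⌊2 * x⌋₊ (g i)) * (2 ^ 26 / 4 ^ w / κ / Real.log x))) =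
      2 ^ 28 / 4 ^ w / κ * (∏ i, ms ⌊2 * x⌋₊ (g i)) * (x / Real.log x) := by ring
  unfold SB at d0
  linarith

end Pool.Agent.MP_c853c5_nt.D
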