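import Pool.Agent.MP_c853c5_nt.D.Defs
import Pool.Agent.MP_c853c5_nt.E.Basic

set_option autoImplicit false

open Finset Filter

namespace Pool.Agent.MP_c853c5_nt.D

open Pool.Agent.MP_c853c5_nt.S

lemma lev_T2 {x : ℝ} (hx : 1 < x) (h : 4 ≤ Real.log x) :
    ∃ L : ℕ, 2 * x < 2 ^ L ∧ (L : ℝ) ≤ Real.log x ^ 2 := by
  have h0 : ⌊2 * x⌋₊ ≠ 0 := (Nat.floor_pos.2 (by linarith)).ne'
  refine ⟨Nat.log 2 ⌊2 * x⌋₊ + 1, ?_, ?_⟩
  · have h1 : ⌊2 * x⌋₊ + 1 ≤ 2 ^ (Nat.log 2 ⌊2 * x⌋₊ + 1) :=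
      Nat.lt_pow_succ_log_self (by norm_num) _
    refine (Nat.lt_floor_add_one _).trans_le ?_
    exact_mod_cast h1
  · have h1 : ((2 ^ Nat.log 2 ⌊2 * x⌋₊ : ℕ) : ℝ) ≤ 2 * x :=
      (Nat.cast_le.2 (Nat.pow_log_le_self 2 h0)).trans (Nat.floor_le (by linarith))
    have h2 := Real.log_le_log (by positivity) h1
    rw [Nat.cast_pow, Real.log_pow, Real.log_mul (by norm_num) (by linarith), Nat.cast_ofNat] at h2
    have h3 := Real.log_two_gt_d9
    have h4 := Real.log_two_lt_d9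
    have h5 : (0 : ℝ) ≤ Nat.log 2 ⌊2 * x⌋₊ := Nat.cast_nonneg _
    push_cast
    nlinarith

lemma exp_T2 (hD : DyStmt) (t : ℝ) {x : ℝ} {L : ℕ} (hx : 0 < x) (hL : 2 * x < 2 ^ L) (f h : AF) :
    Dl t x (f * h) = ∑ e : Unit → Fin L, Dl t x (f * dy (2 ^ (e () : ℕ)) h) := by
  have k : ∀ Δ, SS x Δ (f * h) = ∑ e : Unit → Fin L, SS x Δ (f * dy (2 ^ (e () : ℕ)) h) := by
    intro Δ
    have := hD.1 Unit x Δ L (fun _ => h) f hx hL
    simpa only [Fintype.prod_unique, mul_comm _ f] using this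
  simp only [Dl, SB, k, sum_sub_distrib]

lemma slot_T2 {h : AF} (hh : ∀ n, |h n| ≤ 1) {M : ℕ} (hM : 1 ≤ M) : Slot M (dy M h) := by
  refine ⟨hM, fun n => ?_, fun n hn => ?_⟩
  · change |if M ≤ n ∧ n < 2 * M then h n else 0| ≤ 1
    split_ifs
    · exact hh n
    · simp
  · by_contra k
    exact hn (if_neg k)

lemma size_T2 {ι : Type} [Fintype ι] {x γ γ₀ b : ℝ} {a : ι → ℝ} {N m : ι → ℕ} {M l : ℕ}
    (hx : 1 < x) (hs : ∑ i, a i + b = 1) (hN : Near x γ a N)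
    (hγ : (Fintype.card ι : ℝ) * γ ≤ γ₀ / 2) (hc : 4 * 2 ^ Fintype.card ι ≤ x ^ (γ₀ / 2))
    (hm : ∀ i, N i ≤ m i ∧ m i < 2 * N i) (hl : M ≤ l ∧ l < 2 * M)
    (h1 : x / 2 < (∏ i, (m i : ℝ)) * l) (h2 : (∏ i, (m i : ℝ)) * l ≤ 2 * x) :
    (x ^ (b - γ₀) ≤ M ∧ (M : ℝ) ≤ x ^ (b + γ₀)) ∧ (M : ℝ) * ∏ i, (N i : ℝ) ≤ 2 * x := by
  have x0 : 0 < x := by linarith
  have l1 : (M : ℝ) ≤ l := by exact_mod_cast hl.1
  have l2 : (l : ℝ) ≤ 2 * M := by exact_mod_cast hl.2.le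
  have M0 : (0 : ℝ) ≤ M := Nat.cast_nonneg _
  have p0 : 0 ≤ ∏ i, (N i : ℝ) := by positivity
  have p1 : ∏ i, (N i : ℝ) ≤ ∏ i, (m i : ℝ) :=
    prod_le_prod (fun _ _ => Nat.cast_nonneg _) fun i _ => by exact_mod_cast (hm i).1
  have p2 : ∏ i, (m i : ℝ) ≤ 2 ^ Fintype.card ι * ∏ i, (N i : ℝ) := by
    rw [← card_univ, ← prod_const, ← prod_mul_distrib]
    exact prod_le_prod (fun _ _ => Nat.cast_nonneg _) fun i _ => by exact_mod_cast (hm i).2.le
  have p3 : x ^ (1 - b - γ₀ / 2) ≤ ∏ i, (N i : ℝ) := by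
    refine le_trans ?_ (prod_le_prod (fun _ _ => by positivity) fun i _ => (hN i).1)
    rw [← Real.rpow_sum_of_pos x0, sum_sub_distrib, sum_const, card_univ, nsmul_eq_mul]
    exact Real.rpow_le_rpow_of_exponent_le hx.le (by linarith)
  have p4 : ∏ i, (N i : ℝ) ≤ x ^ (1 - b + γ₀ / 2) := by
    refine le_trans (prod_le_prod (fun _ _ => by positivity) fun i _ => (hN i).2) ?_
    rw [← Real.rpow_sum_of_pos x0, sum_add_distrib, sum_const, card_univ, nsmul_eq_mul]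
    exact Real.rpow_le_rpow_of_exponent_le hx.le (by linarith)
  have q : (M : ℝ) * ∏ i, (N i : ℝ) ≤ 2 * x := by
    refine le_trans ?_ h2
    rw [mul_comm]
    exact mul_le_mul p1 l1 M0 (p0.trans p1)
  have c1 : (1 : ℝ) ≤ 2 ^ Fintype.card ι := one_le_pow₀ (by norm_num)
  have e1 : x ^ (b + γ₀) * x ^ (1 - b - γ₀ / 2) = x ^ (γ₀ / 2) * x := by
    rw [← Real.rpow_add x0, ← Real.rpow_add_one x0.ne']
    congr 1
    ring
  have e2 : x ^ (b - γ₀) * (x ^ (γ₀ / 2) * x ^ (1 - b + γ₀ / 2)) = x := by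
    rw [← Real.rpow_add x0, ← Real.rpow_add x0,
      show b - γ₀ + (γ₀ / 2 + (1 - b + γ₀ / 2)) = 1 by ring, Real.rpow_one]
  refine ⟨⟨?_, ?_⟩, q⟩
  · refine le_of_mul_le_mul_right ?_
      (show 0 < x ^ (γ₀ / 2) * x ^ (1 - b + γ₀ / 2) by positivity)
    rw [e2]
    have r1 : (∏ i, (m i : ℝ)) * l ≤ 2 ^ Fintype.card ι * x ^ (1 - b + γ₀ / 2) * (2 * M) :=
      mul_le_mul (p2.trans (mul_le_mul_of_nonneg_left p4 (by positivity))) l2 (Nat.cast_nonneg _)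
        (by positivity)
    have r2 := mul_le_mul_of_nonneg_right hc
      (show 0 ≤ x ^ (1 - b + γ₀ / 2) * M by positivity)
    nlinarith
  · refine le_of_mul_le_mul_right ?_ (show 0 < x ^ (1 - b - γ₀ / 2) by positivity)
    rw [e1]
    have r1 := mul_le_mul_of_nonneg_left p3 M0
    nlinarith

theorem dT2 (hD : DyStmt) (hV : VanStmt) : T2Stmt := by
  intro hE ι _ τ t η K A h1 h2 h3 h4
  obtain ⟨γ₀, g0, hE⟩ := hE (Option ι) τ t η K (A + 2) h1 h2 h3 h4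
  have k0 : (0 : ℝ) ≤ Fintype.card ι := Nat.cast_nonneg _
  have g1 : (Fintype.card ι + 1 : ℝ) * (γ₀ / (2 * (Fintype.card ι + 1))) = γ₀ / 2 := by
    field_simp
  have g2 : 0 < γ₀ / (2 * (Fintype.card ι + 1)) := by positivity
  refine ⟨_, g2, ?_⟩
  generalize γ₀ / (2 * (Fintype.card ι + 1)) = γ at g1 g2
  filter_upwards [hE, eventually_gt_atTop 1, E.ev_le_log 4,
    E.ev_const_le (4 * 2 ^ Fintype.card ι) (half_pos g0)] with x hE hx hl hc
  intro pr a b N g h ha hb hs hP hg hN hp hh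
  have x0 : 0 < x := by linarith
  have l0 : 0 < Real.log x := by linarith
  obtain ⟨L, L1, L2⟩ := lev_T2 hx hl
  have s0 : 0 ≤ ∑ i, a i := sum_nonneg fun i _ => ha i
  have one : ∀ M : ℕ, 1 ≤ M → |Dl t x ((∏ i, g i) * dy M h)| ≤ x / Real.log x ^ (A + 2) := by
    intro M hM
    by_cases z : ∀ Δ, SS x Δ ((∏ i, g i) * dy M h) = 0
    · simp only [Dl, SB, z, sub_zero, abs_zero]
      positivity
    obtain ⟨Δ, z⟩ := not_forall.1 z
    obtain ⟨m, l, m1, m2, m3, m4⟩ := hV ι x Δ g _ x0 z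
    obtain ⟨b1, b2⟩ := size_T2 (γ₀ := γ₀) hx hs hN (by nlinarith) hc
      (fun i => (hg i).2.2 _ (m1 i)) ((slot_T2 hh hM).2.2 _ m2) m3 m4
    have key := hE (fun o : Option ι => o.elim False pr) (fun o => o.elim b a)
      (fun o => o.elim M N) (fun o => o.elim (dy M h) g) ?_ hP ?_ ?_ ?_ ?_
    · rwa [Fintype.prod_option, mul_comm] at key
    · rintro (_ | i)
      · exact ⟨hb, show b ≤ 1 by linarith⟩
      · have := single_le_sum (fun i _ => ha i) (mem_univ i)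
        exact ⟨ha i, show a i ≤ 1 by linarith⟩
    · rintro (_ | i)
      exacts [slot_T2 hh hM, hg i]
    · rintro (_ | i)
      · exact b1
      · have : γ ≤ γ₀ := by nlinarith
        exact ⟨(Real.rpow_le_rpow_of_exponent_le hx.le
            (show a i - γ₀ ≤ a i - γ by linarith)).trans (hN i).1,
          (hN i).2.trans (Real.rpow_le_rpow_of_exponent_le hx.le
            (show a i + γ ≤ a i + γ₀ by linarith))⟩
    · rintro (_ | i)
      exacts [False.elim, hp i]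
    · rw [Fintype.prod_option]
      exact b2
  rw [exp_T2 hD t x0 L1]
  refine (abs_sum_le_sum_abs _ _).trans ((sum_le_card_nsmul _ _ _ fun e _ =>
    one _ Nat.one_le_two_pow).trans ?_)
  rw [card_univ, Fintype.card_fun, Fintype.card_fin, Fintype.card_unit, pow_one, nsmul_eq_mul]
  refine (mul_le_mul_of_nonneg_right L2 (by positivity)).trans (le_of_eq ?_)
  field_simp
  ring

end Pool.Agent.MP_c853c5_nt.D
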