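import Pool.Agent.MP_c853c5_nt.D.Fin
import Pool.Agent.MP_c853c5_nt.D.One
import Pool.Agent.MP_c853c5_nt.D.T1
import Pool.Agent.MP_c853c5_nt.D.T1R
import Pool.Agent.MP_c853c5_nt.D.T2
import Pool.Agent.MP_c853c5_nt.D.SZ
import Pool.Agent.MP_c853c5_nt.D.Id
import Pool.Agent.MP_c853c5_nt.D.Nom
import Pool.Agent.MP_c853c5_nt.D.Dy
import Pool.Agent.MP_c853c5_nt.D.Row
import Pool.Agent.MP_c853c5_nt.D.Sum
import Pool.Agent.MP_c853c5_nt.D.Ms
import Pool.Agent.MP_c853c5_nt.D.Bad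

set_option autoImplicit false

namespace Pool.Agent.MP_c853c5_nt.D

open Pool.Agent.MP_c853c5_nt.S

theorem leafS (h1 : E1D) (h2 : E2D) : LeafS :=
  dFin (dT2 dDy dVan) dT1R (dT1 dVan) dSZ dNom dVan dPr dDy dId dBad dMs dOne dRow dSum h1 h2

end Pool.Agent.MP_c853c5_nt.D
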